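import Mathlib

/-!
# A root near a point where the polynomial is small compared with a nearby value
-/

namespace Pool.Agent.LibCrit

open Polynomial

theorem root_near (g : ℂ[X]) (N : ℕ) (hN : g.natDegree ≤ N) (hN0 : 0 < N) (z δ : ℂ)
    (h : 3 * ‖g.eval z‖ ≤ ‖g.eval (z + δ)‖) (hne : g.eval (z + δ) ≠ 0) :
    ∃ r, g.eval r = 0 ∧ ‖z - r‖ ≤ N * ‖δ‖ := by
  by_contra hcon
  push Not at hcon
  have hNr : (0 : ℝ) < N := by exact_mod_cast hN0
  have hz : g.eval z ≠ 0 := by
    intro h0
    have := hcon z h0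
    rw [sub_self, norm_zero] at this
    have h2 : (0 : ℝ) ≤ N * ‖δ‖ := by positivity
    linarith
  have hg : g ≠ 0 := by
    rintro rfl
    simp at hz
  have hsplit : g.Splits := IsAlgClosed.splits g
  have heval : ∀ w, g.eval w = g.leadingCoeff * (g.roots.map (fun r => w - r)).prod :=
    fun w => hsplit.eval_eq_prod_roots w
  have hroot : ∀ r ∈ g.roots, ‖z + δ - r‖ ≤ (1 + 1 / (N : ℝ)) * ‖z - r‖ := by
    intro r hr
    have h1 := hcon r ((mem_roots hg).1 hr)
    have h2 : ‖δ‖ ≤ 1 / (N : ℝ) * ‖z - r‖ := by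
      rw [one_div, ← div_eq_inv_mul, le_div_iff₀ hNr]
      linarith
    calc ‖z + δ - r‖ = ‖(z - r) + δ‖ := by ring_nf
      _ ≤ ‖z - r‖ + ‖δ‖ := norm_add_le _ _
      _ ≤ (1 + 1 / (N : ℝ)) * ‖z - r‖ := by linarith
  have hprod : ‖(g.roots.map (fun r => z + δ - r)).prod‖ ≤
      (1 + 1 / (N : ℝ)) ^ (Multiset.card g.roots) * ‖(g.roots.map (fun r => z - r)).prod‖ := by
    have key : ∀ s : Multiset ℂ, (∀ r ∈ s, ‖z + δ - r‖ ≤ (1 + 1 / (N : ℝ)) * ‖z - r‖) →
        ‖(s.map (fun r => z + δ - r)).prod‖ ≤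
        (1 + 1 / (N : ℝ)) ^ (Multiset.card s) * ‖(s.map (fun r => z - r)).prod‖ := by
      intro s
      induction s using Multiset.induction_on with
      | empty => intro _; simp
      | cons r s ih =>
        intro hs
        rw [Multiset.map_cons, Multiset.prod_cons, Multiset.map_cons, Multiset.prod_cons,
          Multiset.card_cons, norm_mul, norm_mul, pow_succ]
        have h1 := hs r (Multiset.mem_cons_self r s)
        have h2 := ih (fun r hr => hs r (Multiset.mem_cons_of_mem hr))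
        calc ‖z + δ - r‖ * ‖(s.map (fun r => z + δ - r)).prod‖
            ≤ ((1 + 1 / (N : ℝ)) * ‖z - r‖) * ((1 + 1 / (N : ℝ)) ^ (Multiset.card s) *
              ‖(s.map (fun r => z - r)).prod‖) := by
              apply mul_le_mul h1 h2 (norm_nonneg _)
              positivity
          _ = _ := by ring
    exact key _ hroot
  have hcard : Multiset.card g.roots ≤ N := (card_roots' g).trans hN
  have hpow : (1 + 1 / (N : ℝ)) ^ (Multiset.card g.roots) < 3 := by
    calc (1 + 1 / (N : ℝ)) ^ (Multiset.card g.roots) ≤ (1 + 1 / (N : ℝ)) ^ N := by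
          apply pow_le_pow_right₀ _ hcard
          have : 0 < 1 / (N : ℝ) := by positivity
          linarith
      _ ≤ (Real.exp (1 / (N : ℝ))) ^ N := by
          apply pow_le_pow_left₀ (by positivity)
          have := Real.add_one_le_exp (1 / (N : ℝ))
          linarith
      _ = Real.exp 1 := by
          rw [← Real.exp_nat_mul]
          congr 1
          field_simp
      _ < 3 := by
          have := Real.exp_one_lt_d9
          linarith
  have h1 : ‖g.eval (z + δ)‖ ≤ (1 + 1 / (N : ℝ)) ^ (Multiset.card g.roots) * ‖g.eval z‖ := by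
    rw [heval, heval z, norm_mul, norm_mul]
    calc ‖g.leadingCoeff‖ * ‖(g.roots.map (fun r => z + δ - r)).prod‖
        ≤ ‖g.leadingCoeff‖ * ((1 + 1 / (N : ℝ)) ^ (Multiset.card g.roots) *
          ‖(g.roots.map (fun r => z - r)).prod‖) :=
          mul_le_mul_of_nonneg_left hprod (norm_nonneg _)
      _ = _ := by ring
  have h2 : 0 < ‖g.eval z‖ := norm_pos_iff.2 hz
  have h3 : (1 + 1 / (N : ℝ)) ^ (Multiset.card g.roots) * ‖g.eval z‖ < 3 * ‖g.eval z‖ :=
    mul_lt_mul_of_pos_right hpow h2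
  linarith

end Pool.Agent.LibCrit
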