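import Pool.Agent.Lib_MP_11e9c7_an.Loop
import Pool.Agent.Lib_MP_11e9c7_an.Root

/-!
# From the integer checks to the existence of the critical point and the fixed point

The multiplicities are `4096, 2048, 256`.
-/

namespace Pool.Agent.LibCrit

open Complex

/-- Start of the loop. -/
def start (M : ℕ) (c1 c2 z1 z2 : ℤ) (fin : ℤ → ℤ → ℤ → ℤ → ℕ → Bool) : Bool :=
  forceI ((M : ℤ) / 6401) fun A =>
  loop 2048 256 6400 M c1 c2 z1 z2 fin 2304 0 (M : ℤ) 0 0 0 0 0 A 0 A 0 2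

theorem start_sound {M : ℕ} (hM : 0 < M) {c z : ℂ} {c1 c2 z1 z2 : ℤ}
    (hc : zc c1 c2 = M * c) (hc1 : ‖c‖ ≤ 1) (hz : zc z1 z2 = M * z)
    (hz1 : ‖z‖ ≤ 1) {fin : ℤ → ℤ → ℤ → ℤ → ℕ → Bool}
    (h : start M c1 c2 z1 z2 fin = true) :
    ∃ A1 A2 B1 B2 eA, fin A1 A2 B1 B2 eA = true ∧
      Ap M A1 A2 eA (acc 4096 2048 256 c 1 2304) ∧
      Ap M B1 B2 eA (acc 4096 2048 256 c z 2304) := by
  have h0 : Ap M ((M : ℤ) / 6401) 0 2 (1 / ((4096 : ℕ) + (2048 : ℕ) + (256 : ℕ) + 1 : ℂ)) := by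
    have := floor_err (M : ℤ) 0 6401 (by norm_num)
    unfold Ap
    have e1 : (0 : ℤ) / ((6401 : ℕ) : ℤ) = 0 := by norm_num
    rw [e1] at this
    have e2 : zc (M : ℤ) 0 / ((6401 : ℕ) : ℂ) =
        (M : ℂ) * (1 / ((4096 : ℕ) + (2048 : ℕ) + (256 : ℕ) + 1 : ℂ)) := by
      unfold zc
      push_cast
      norm_num
      ring
    rw [e2] at this
    exact_mod_cast this
  have hinv : Inv 4096 2048 256 M c z 0
      ⟨(M : ℤ), 0, 0, 0, 0, 0, (M : ℤ) / 6401, 0, (M : ℤ) / 6401, 0, 2⟩ := by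
    refine ⟨?_, ?_, h0, h0⟩
    · simp [Ap, zc, rr]
    · simp [Ap, zc, rr]
  unfold start at h
  rw [forceI_eq] at h
  have := loop_sound (a := 4096) (b := 2048) (e := 256) (D := 6400) rfl hM hc hc1 hz hz1
    2304 0 _ (by norm_num) hinv h
  simpa using this

theorem Phi_one (c : ℂ) : Phi 4096 2048 256 c 1 = acc 4096 2048 256 c 1 2304 := by
  rw [Phi_eq_acc]
  simp

/-- Check of the function `Phi c z - Phi c 1`. -/
def finG (M : ℕ) (z1 z2 : ℤ) (chk : ℤ → ℤ → ℕ → Bool) : ℤ → ℤ → ℤ → ℤ → ℕ → Bool :=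
  fun A1 A2 B1 B2 eA =>
    sq M (fun p1 p2 =>
      forceI ((p1 * B1 - p2 * B2) / (M : ℤ) - A1) fun g1 =>
      forceI ((p1 * B2 + p2 * B1) / (M : ℤ) - A2) fun g2 =>
      forceN (12285 * (B1.natAbs + B2.natAbs) / M + eA + 3 + eA) fun eg =>
      chk g1 g2 eg) 12 z1 z2

theorem finG_sound {M : ℕ} (hM : (3 * 2 ^ 13) ^ 2 ≤ M) {c z : ℂ} {z1 z2 : ℤ}
    (hz : zc z1 z2 = M * z) (hz1 : ‖z‖ ≤ 1) {chk : ℤ → ℤ → ℕ → Bool}
    {A1 A2 B1 B2 : ℤ} {eA : ℕ} (hA : Ap M A1 A2 eA (acc 4096 2048 256 c 1 2304))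
    (hB : Ap M B1 B2 eA (acc 4096 2048 256 c z 2304))
    (h : finG M z1 z2 chk A1 A2 B1 B2 eA = true) :
    ∃ g1 g2 eg, chk g1 g2 eg = true ∧
      Ap M g1 g2 eg (Phi 4096 2048 256 c z - Phi 4096 2048 256 c 1) := by
  have hM0 : 0 < M := lt_of_lt_of_le (by norm_num) hM
  unfold finG at h
  obtain ⟨p1, p2, h1, hp⟩ := sq_sound' hM hz1 12 z1 z2 (by norm_num) hz h
  rw [forceI_eq, forceI_eq, forceN_eq] at h1
  refine ⟨_, _, _, h1, ?_⟩
  have hzp : ‖z ^ (2 ^ 12)‖ ≤ 1 := by rw [norm_pow]; exact pow_le_one₀ (norm_nonneg _) hz1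
  have h2 := (hp.mul_big hM0 hB hzp).sub hA
  rw [Phi_one, Phi_eq_acc]
  have e1 : 3 * (2 ^ 12 - 1) = 12285 := by norm_num
  have e2 : (2 : ℕ) ^ 12 = 4096 := by norm_num
  rw [e1, e2] at h2
  exact h2

/-- Smallness check. -/
def chkS (η : ℕ) : ℤ → ℤ → ℕ → Bool :=
  fun g1 g2 eg => decide (g1.natAbs + g2.natAbs + eg ≤ η)

/-- Largeness check. -/
def chkL (η : ℕ) : ℤ → ℤ → ℕ → Bool :=
  fun g1 g2 eg => decide (η + eg ≤ max g1.natAbs g2.natAbs)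

theorem natAbs_cast (g : ℤ) : ((g.natAbs : ℕ) : ℝ) = |(g : ℝ)| := by
  rw [Nat.cast_natAbs]
  push_cast
  rfl

theorem chkS_sound {M η eg : ℕ} {g1 g2 : ℤ} {G : ℂ} (h : chkS η g1 g2 eg = true)
    (hg : Ap M g1 g2 eg G) : M * ‖G‖ ≤ η := by
  unfold chkS at h
  rw [decide_eq_true_eq] at h
  have h1 : (((g1.natAbs + g2.natAbs + eg : ℕ)) : ℝ) ≤ η := by exact_mod_cast h
  push_cast at h1
  have h1' : |(g1 : ℝ)| + |(g2 : ℝ)| + eg ≤ η := by
    rw [← natAbs_cast, ← natAbs_cast]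
    exact_mod_cast h
  have h2 := zc_norm_le g1 g2
  unfold Ap at hg
  have h3 : (M : ℝ) * ‖G‖ = ‖(M : ℂ) * G‖ := by rw [norm_mul, Complex.norm_natCast]
  rw [h3]
  have h4 : (M : ℂ) * G = zc g1 g2 - (zc g1 g2 - M * G) := by ring
  rw [h4]
  refine (norm_sub_le _ _).trans ?_
  linarith

theorem zc_norm_ge_im (x y : ℤ) : |(y : ℝ)| ≤ ‖zc x y‖ := by
  have h := Complex.abs_im_le_norm (zc x y)
  simpa [zc] using h

theorem zc_norm_ge_max (g1 g2 : ℤ) : ((max g1.natAbs g2.natAbs : ℕ) : ℝ) ≤ ‖zc g1 g2‖ := by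
  rcases max_cases g1.natAbs g2.natAbs with h | h
  · rw [h.1, natAbs_cast]
    exact zc_norm_ge_re g1 g2
  · rw [h.1, natAbs_cast]
    exact zc_norm_ge_im g1 g2

theorem lower_of_max {M η eg : ℕ} {g1 g2 : ℤ} {G : ℂ} (h : η + eg ≤ max g1.natAbs g2.natAbs)
    (hg : Ap M g1 g2 eg G) : (η : ℝ) ≤ M * ‖G‖ := by
  have h1 : ((η + eg : ℕ) : ℝ) ≤ ((max g1.natAbs g2.natAbs : ℕ) : ℝ) := by exact_mod_cast h
  have h2 := zc_norm_ge_max g1 g2
  rw [Nat.cast_add] at h1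
  unfold Ap at hg
  have h3 : (M : ℝ) * ‖G‖ = ‖(M : ℂ) * G‖ := by rw [norm_mul, Complex.norm_natCast]
  rw [h3]
  have h4 : zc g1 g2 = (M : ℂ) * G + (zc g1 g2 - M * G) := by ring
  have h5 : ‖zc g1 g2‖ ≤ ‖(M : ℂ) * G‖ + ‖zc g1 g2 - M * G‖ := by
    conv_lhs => rw [h4]
    exact norm_add_le _ _
  linarith

theorem chkL_sound {M η eg : ℕ} {g1 g2 : ℤ} {G : ℂ} (h : chkL η g1 g2 eg = true)
    (hg : Ap M g1 g2 eg G) : (η : ℝ) ≤ M * ‖G‖ := by
  unfold chkL at h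
  rw [decide_eq_true_eq] at h
  exact lower_of_max h hg

theorem runS {M η : ℕ} (hM : (3 * 2 ^ 13) ^ 2 ≤ M) {c z : ℂ} {c1 c2 z1 z2 : ℤ}
    (hc : zc c1 c2 = M * c) (hc1 : ‖c‖ ≤ 1) (hz : zc z1 z2 = M * z) (hz1 : ‖z‖ ≤ 1)
    (h : start M c1 c2 z1 z2 (finG M z1 z2 (chkS η)) = true) :
    M * ‖Phi 4096 2048 256 c z - Phi 4096 2048 256 c 1‖ ≤ η := by
  have hM0 : 0 < M := lt_of_lt_of_le (by norm_num) hM
  obtain ⟨A1, A2, B1, B2, eA, hf, hA, hB⟩ := start_sound hM0 hc hc1 hz hz1 h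
  obtain ⟨g1, g2, eg, h1, h2⟩ := finG_sound hM hz hz1 hA hB hf
  exact chkS_sound h1 h2

theorem runL {M η : ℕ} (hM : (3 * 2 ^ 13) ^ 2 ≤ M) {c z : ℂ} {c1 c2 z1 z2 : ℤ}
    (hc : zc c1 c2 = M * c) (hc1 : ‖c‖ ≤ 1) (hz : zc z1 z2 = M * z) (hz1 : ‖z‖ ≤ 1)
    (h : start M c1 c2 z1 z2 (finG M z1 z2 (chkL η)) = true) :
    (η : ℝ) ≤ M * ‖Phi 4096 2048 256 c z - Phi 4096 2048 256 c 1‖ := by
  have hM0 : 0 < M := lt_of_lt_of_le (by norm_num) hM
  obtain ⟨A1, A2, B1, B2, eA, hf, hA, hB⟩ := start_sound hM0 hc hc1 hz hz1 h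
  obtain ⟨g1, g2, eg, h1, h2⟩ := finG_sound hM hz hz1 hA hB hf
  exact chkL_sound h1 h2

/-- The check of the multiplier. -/
def chkP (U Δ EP Ea : ℕ) (A1 A2 : ℤ) (eA : ℕ) (t1 t2 : ℤ) : Bool :=
  decide (eA ≤ Ea) && (decide (A1 * A1 + A2 * A2 ≤ (U : ℤ) * U) &&
  (decide (((6400 * U + Δ : ℕ) : ℤ) * ((6400 * U + Δ : ℕ) : ℤ) ≤
    (2 * t1 - 6402 * A1) * (2 * t1 - 6402 * A1) + (2 * t2 - 6402 * A2) * (2 * t2 - 6402 * A2)) &&
  (decide (EP < max t1.natAbs t2.natAbs) && decide (EP < max A1.natAbs A2.natAbs))))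

/-- The product of the three powers. -/
def finP (M : ℕ) (c1 c2 z1 z2 : ℤ) (chk : ℤ → ℤ → Bool) : Bool :=
  sq M (fun u1 u2 => sq M (fun v1 v2 => sq M (fun w1 w2 =>
    forceI ((u1 * v1 - u2 * v2) / (M : ℤ)) fun s1 =>
    forceI ((u1 * v2 + u2 * v1) / (M : ℤ)) fun s2 =>
    forceI ((s1 * w1 - s2 * w2) / (M : ℤ)) fun t1 =>
    forceI ((s1 * w2 + s2 * w1) / (M : ℤ)) fun t2 =>
    chk t1 t2) 8 (z1 - c1) (z2 - c2)) 11 (z1 - (M : ℤ)) z2) 12 z1 z2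

theorem finP_sound {M : ℕ} (hM : (3 * 2 ^ 13) ^ 2 ≤ M) {c z : ℂ} {c1 c2 z1 z2 : ℤ}
    (hc : zc c1 c2 = M * c) (hz : zc z1 z2 = M * z) (hr : Reg c z)
    {chk : ℤ → ℤ → Bool} (h : finP M c1 c2 z1 z2 chk = true) :
    ∃ t1 t2, chk t1 t2 = true ∧ Ap M t1 t2 19197 (PP 4096 2048 256 c z) := by
  have hM0 : 0 < M := lt_of_lt_of_le (by norm_num) hM
  unfold finP at h
  obtain ⟨u1, u2, h1, hu⟩ := sq_sound' hM hr.h0 12 z1 z2 (by norm_num) hz h
  have hz' : zc (z1 - (M : ℤ)) z2 = M * (z - 1) := by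
    have : zc (z1 - (M : ℤ)) z2 = zc z1 z2 - M := by
      unfold zc; push_cast; ring
    rw [this, hz]; ring
  obtain ⟨v1, v2, h2, hv⟩ := sq_sound' hM hr.h1 11 _ _ (by norm_num) hz' h1
  have hz'' : zc (z1 - c1) (z2 - c2) = M * (z - c) := by
    rw [← zc_sub, hz, hc]; ring
  obtain ⟨w1, w2, h3, hw⟩ := sq_sound' hM hr.h2 8 _ _ (by norm_num) hz'' h2
  simp only [forceI_eq] at h3
  refine ⟨_, _, h3, ?_⟩
  have n1 : ∀ (m : ℕ) (x : ℂ), ‖x‖ ≤ 1 → ‖x ^ m‖ ≤ 1 := fun m x hx => by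
    rw [norm_pow]; exact pow_le_one₀ (norm_nonneg _) hx
  have hs := hu.mul_small hM0 hv (n1 _ _ hr.h0) (n1 _ _ hr.h1)
    (le_trans (by norm_num) hM)
  have hsn : ‖z ^ (2 ^ 12) * (z - 1) ^ (2 ^ 11)‖ ≤ 1 := by
    rw [norm_mul]
    exact mul_le_one₀ (n1 _ _ hr.h0) (norm_nonneg _) (n1 _ _ hr.h1)
  have ht := hs.mul_small hM0 hw hsn (n1 _ _ hr.h2) (le_trans (by norm_num) hM)
  have e1 : 3 * (2 ^ 12 - 1) + 3 * (2 ^ 11 - 1) + 3 + 3 * (2 ^ 8 - 1) + 3 = 19197 := by norm_num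
  rw [e1] at ht
  exact ht

/-- The combined check at the fixed point. -/
def finGP (M η U Δ EP Ea : ℕ) (c1 c2 z1 z2 : ℤ) : ℤ → ℤ → ℤ → ℤ → ℕ → Bool :=
  fun A1 A2 B1 B2 eA => finG M z1 z2 (chkS η) A1 A2 B1 B2 eA &&
    finP M c1 c2 z1 z2 (fun t1 t2 => chkP U Δ EP Ea A1 A2 eA t1 t2)

theorem box_norm {x : ℂ} {u v : ℝ} (h1 : |x.re| ≤ u) (h2 : |x.im| ≤ v) (h : u ^ 2 + v ^ 2 ≤ 1) :
    ‖x‖ ≤ 1 := by
  have h3 : ‖x‖ ^ 2 ≤ 1 := by
    rw [Complex.sq_norm, Complex.normSq_apply]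
    have h4 : x.re * x.re ≤ u ^ 2 := by
      rw [← abs_mul_abs_self x.re, pow_two]
      exact mul_self_le_mul_self (abs_nonneg _) h1
    have h5 : x.im * x.im ≤ v ^ 2 := by
      rw [← abs_mul_abs_self x.im, pow_two]
      exact mul_self_le_mul_self (abs_nonneg _) h2
    linarith
  have := abs_le_of_sq_le_sq (a := ‖x‖) (b := 1) (by simpa using h3) zero_le_one
  exact (abs_le.1 this).2

/-- Closeness to the approximate critical point. -/
def nearC (c : ℂ) : Prop := |c.re - 0.706| ≤ 0.01 ∧ |c.im - 0.205| ≤ 0.01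

/-- Closeness to the approximate fixed point. -/
def nearP (p : ℂ) : Prop := |p.re - 0.7255| ≤ 0.01 ∧ |p.im - 0.1335| ≤ 0.01

theorem nearC.norm {c : ℂ} (h : nearC c) : ‖c‖ ≤ 1 := by
  obtain ⟨h1, h2⟩ := h
  rw [abs_le] at h1 h2
  refine box_norm (u := 0.72) (v := 0.22) ?_ ?_ (by norm_num) <;> rw [abs_le] <;>
    constructor <;> linarith

theorem nearC.reg_one {c : ℂ} (h : nearC c) : Reg c 1 := by
  obtain ⟨h1, h2⟩ := h
  rw [abs_le] at h1 h2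
  refine ⟨by simp, by simp, ?_⟩
  refine box_norm (u := 0.31) (v := 0.22) ?_ ?_ (by norm_num) <;> rw [abs_le] <;>
    constructor <;> simp <;> linarith

theorem nearC.reg_self {c : ℂ} (h : nearC c) : Reg c c := by
  refine ⟨h.norm, ?_, by simp⟩
  obtain ⟨h1, h2⟩ := h
  rw [abs_le] at h1 h2
  refine box_norm (u := 0.31) (v := 0.22) ?_ ?_ (by norm_num) <;> rw [abs_le] <;>
    constructor <;> simp <;> linarith

theorem near_reg {c p : ℂ} (h : nearC c) (h' : nearP p) : Reg c p := by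
  obtain ⟨h1, h2⟩ := h
  obtain ⟨h3, h4⟩ := h'
  rw [abs_le] at h1 h2 h3 h4
  refine ⟨?_, ?_, ?_⟩
  · refine box_norm (u := 0.74) (v := 0.15) ?_ ?_ (by norm_num) <;> rw [abs_le] <;>
      constructor <;> linarith
  · refine box_norm (u := 0.3) (v := 0.15) ?_ ?_ (by norm_num) <;> rw [abs_le] <;>
      constructor <;> simp <;> linarith
  · refine box_norm (u := 0.1) (v := 0.1) ?_ ?_ (by norm_num) <;> rw [abs_le] <;>
      constructor <;> simp <;> linarith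

theorem nearC_of {c0 c : ℂ} (h : |c0.re - 0.706| ≤ 0.005 ∧ |c0.im - 0.205| ≤ 0.005)
    (hd : ‖c0 - c‖ ≤ 0.005) : nearC c := by
  have h1 := (Complex.abs_re_le_norm (c0 - c)).trans hd
  have h2 := (Complex.abs_im_le_norm (c0 - c)).trans hd
  rw [Complex.sub_re] at h1
  rw [Complex.sub_im] at h2
  obtain ⟨h3, h4⟩ := h
  rw [abs_le] at h1 h2 h3 h4
  constructor <;> rw [abs_le] <;> constructor <;> linarith

theorem nearP_of {c0 c : ℂ} (h : |c0.re - 0.7255| ≤ 0.005 ∧ |c0.im - 0.1335| ≤ 0.005)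
    (hd : ‖c0 - c‖ ≤ 0.005) : nearP c := by
  have h1 := (Complex.abs_re_le_norm (c0 - c)).trans hd
  have h2 := (Complex.abs_im_le_norm (c0 - c)).trans hd
  rw [Complex.sub_re] at h1
  rw [Complex.sub_im] at h2
  obtain ⟨h3, h4⟩ := h
  rw [abs_le] at h1 h2 h3 h4
  constructor <;> rw [abs_le] <;> constructor <;> linarith

theorem exists_cp {M K1 K2 η1 η2 η3 U Δ EP EF Ea : ℕ} (hM : (3 * 2 ^ 13) ^ 2 ≤ M)
    {c1 c2 z1 z2 : ℤ}
    (hη1 : 0 < η1)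
    (hK1 : 6400 * K1 * 200 ≤ M) (hK2 : 6400 * K2 * 200 ≤ M)
    (hbox1 : 701 * (M : ℤ) ≤ 1000 * c1 ∧ 1000 * c1 ≤ 711 * (M : ℤ))
    (hbox2 : 200 * (M : ℤ) ≤ 1000 * c2 ∧ 1000 * c2 ≤ 210 * (M : ℤ))
    (hbox3 : 7205 * (M : ℤ) ≤ 10000 * z1 ∧ 10000 * z1 ≤ 7305 * (M : ℤ))
    (hbox4 : 1285 * (M : ℤ) ≤ 10000 * z2 ∧ 10000 * z2 ≤ 1385 * (M : ℤ))
    (hη : 3 * (η2 + 512 * 6400 * K1) + 512 * 6400 * K1 < η3)
    (hEP : 19197 + 6400 * 6400 * K2 + 256 * 6400 * K1 ≤ EP)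
    (hEF : Ea + 256 * 6400 * K1 ≤ EF) (hEFP : EF ≤ EP) (hΔ : 2 * EP + 12802 * EF < Δ)
    (h1 : start M c1 c2 c1 c2 (finG M c1 c2 (chkS η1)) = true)
    (h2 : start M (c1 + K1) c2 (c1 + K1) c2 (finG M (c1 + K1) c2 (chkL (3 * η1))) = true)
    (h3 : start M c1 c2 z1 z2 (finGP M η2 U Δ EP Ea c1 c2 z1 z2) = true)
    (h4 : start M c1 c2 (z1 + K2) z2 (finG M (z1 + K2) z2 (chkL η3)) = true) :
    ∃ c p : ℂ, Phi 4096 2048 256 c c = Phi 4096 2048 256 c 1 ∧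
      Phi 4096 2048 256 c p = Phi 4096 2048 256 c 1 ∧ Phi 4096 2048 256 c 1 ≠ 0 ∧
      PP 4096 2048 256 c p ≠ 0 ∧
      6400 * ‖Phi 4096 2048 256 c 1‖ <
        ‖2 * PP 4096 2048 256 c p - 6402 * Phi 4096 2048 256 c 1‖ := by
  have hM0 : 0 < M := lt_of_lt_of_le (by norm_num) hM
  have hMr : (0 : ℝ) < M := by exact_mod_cast hM0
  have hMc : (M : ℂ) ≠ 0 := by exact_mod_cast hM0.ne'
  -- the approximate points
  set c0 : ℂ := zc c1 c2 / M with hc0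
  set p0 : ℂ := zc z1 z2 / M with hp0
  set δ1 : ℂ := (K1 : ℂ) / M with hδ1
  set δ2 : ℂ := (K2 : ℂ) / M with hδ2
  have ec0 : zc c1 c2 = M * c0 := by rw [hc0]; field_simp
  have ep0 : zc z1 z2 = M * p0 := by rw [hp0]; field_simp
  have ec1 : zc (c1 + K1) c2 = M * (c0 + δ1) := by
    rw [hc0, hδ1]
    unfold zc
    push_cast
    field_simp
    ring
  have ep1 : zc (z1 + K2) z2 = M * (p0 + δ2) := by
    rw [hp0, hδ2]
    unfold zc
    push_cast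
    field_simp
    ring
  have nδ1 : ‖δ1‖ = K1 / M := by rw [hδ1, norm_div, Complex.norm_natCast, Complex.norm_natCast]
  have nδ2 : ‖δ2‖ = K2 / M := by rw [hδ2, norm_div, Complex.norm_natCast, Complex.norm_natCast]
  have dδ1 : 6400 * ‖δ1‖ ≤ 0.005 := by
    rw [nδ1]
    have : (6400 : ℝ) * K1 * 200 ≤ M := by exact_mod_cast hK1
    have h5 : (6400 : ℝ) * (K1 / M) = (6400 * K1) / M := by ring
    rw [h5, div_le_iff₀ hMr]
    linarith
  have dδ2 : 6400 * ‖δ2‖ ≤ 0.005 := by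
    rw [nδ2]
    have : (6400 : ℝ) * K2 * 200 ≤ M := by exact_mod_cast hK2
    have h5 : (6400 : ℝ) * (K2 / M) = (6400 * K2) / M := by ring
    rw [h5, div_le_iff₀ hMr]
    linarith
  have c0re : c0.re = c1 / M := by
    rw [hc0]
    unfold zc
    rw [Complex.div_natCast_re]
    simp
  have c0im : c0.im = c2 / M := by
    rw [hc0]
    unfold zc
    rw [Complex.div_natCast_im]
    simp
  have p0re : p0.re = z1 / M := by
    rw [hp0]
    unfold zc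
    rw [Complex.div_natCast_re]
    simp
  have p0im : p0.im = z2 / M := by
    rw [hp0]
    unfold zc
    rw [Complex.div_natCast_im]
    simp
  have bc0 : |c0.re - 0.706| ≤ 0.005 ∧ |c0.im - 0.205| ≤ 0.005 := by
    have a1 : (701 : ℝ) * M ≤ 1000 * c1 := by exact_mod_cast hbox1.1
    have a2 : (1000 : ℝ) * c1 ≤ 711 * M := by exact_mod_cast hbox1.2
    have a3 : (200 : ℝ) * M ≤ 1000 * c2 := by exact_mod_cast hbox2.1
    have a4 : (1000 : ℝ) * c2 ≤ 210 * M := by exact_mod_cast hbox2.2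
    have b1 : (0.701 : ℝ) ≤ c1 / M := by rw [le_div_iff₀ hMr]; linarith
    have b2 : c1 / M ≤ (0.711 : ℝ) := by rw [div_le_iff₀ hMr]; linarith
    have b3 : (0.2 : ℝ) ≤ c2 / M := by rw [le_div_iff₀ hMr]; linarith
    have b4 : c2 / M ≤ (0.21 : ℝ) := by rw [div_le_iff₀ hMr]; linarith
    rw [c0re, c0im]
    constructor <;> rw [abs_le] <;> constructor <;> linarith
  have bp0 : |p0.re - 0.7255| ≤ 0.005 ∧ |p0.im - 0.1335| ≤ 0.005 := by
    have a1 : (7205 : ℝ) * M ≤ 10000 * z1 := by exact_mod_cast hbox3.1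
    have a2 : (10000 : ℝ) * z1 ≤ 7305 * M := by exact_mod_cast hbox3.2
    have a3 : (1285 : ℝ) * M ≤ 10000 * z2 := by exact_mod_cast hbox4.1
    have a4 : (10000 : ℝ) * z2 ≤ 1385 * M := by exact_mod_cast hbox4.2
    have b1 : (0.7205 : ℝ) ≤ z1 / M := by rw [le_div_iff₀ hMr]; linarith
    have b2 : z1 / M ≤ (0.7305 : ℝ) := by rw [div_le_iff₀ hMr]; linarith
    have b3 : (0.1285 : ℝ) ≤ z2 / M := by rw [le_div_iff₀ hMr]; linarith
    have b4 : z2 / M ≤ (0.1385 : ℝ) := by rw [div_le_iff₀ hMr]; linarith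
    rw [p0re, p0im]
    constructor <;> rw [abs_le] <;> constructor <;> linarith
  have nc0 : nearC c0 := nearC_of bc0 (by simp; norm_num)
  have np0 : nearP p0 := nearP_of bp0 (by simp; norm_num)
  have nc1 : nearC (c0 + δ1) := nearC_of bc0 (by
    have : c0 - (c0 + δ1) = -δ1 := by ring
    rw [this, norm_neg]
    have := norm_nonneg δ1
    linarith)
  have np1 : nearP (p0 + δ2) := nearP_of bp0 (by
    have : p0 - (p0 + δ2) = -δ2 := by ring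
    rw [this, norm_neg]
    have := norm_nonneg δ2
    linarith)
  -- the critical point
  have r1 := runS hM ec0 nc0.norm ec0 nc0.norm h1
  have r2 := runL hM ec1 nc1.norm ec1 nc1.norm h2
  have hη1' : (0 : ℝ) < η1 := by exact_mod_cast hη1
  obtain ⟨c, hcroot, hcdist⟩ := root_near (gc 4096 2048 256) 6400
    (gc_natDegree 4096 2048 256) (by norm_num) c0 δ1
    (by
      rw [gc_eval, gc_eval]
      push_cast at r2
      have h5 : (M : ℝ) * (3 * ‖Phi 4096 2048 256 c0 c0 - Phi 4096 2048 256 c0 1‖) ≤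
          M * ‖Phi 4096 2048 256 (c0 + δ1) (c0 + δ1) - Phi 4096 2048 256 (c0 + δ1) 1‖ := by
        linarith
      exact le_of_mul_le_mul_left h5 hMr)
    (by
      rw [gc_eval]
      intro h5
      rw [h5, norm_zero, mul_zero] at r2
      push_cast at r2
      linarith)
  rw [gc_eval, sub_eq_zero] at hcroot
  have hcd : ‖c0 - c‖ ≤ 6400 * ‖δ1‖ := by exact_mod_cast hcdist
  have nc : nearC c := nearC_of bc0 (hcd.trans dδ1)
  have hMcd : (M : ℝ) * ‖c - c0‖ ≤ 6400 * K1 := by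
    rw [norm_sub_rev]
    calc (M : ℝ) * ‖c0 - c‖ ≤ M * (6400 * ‖δ1‖) := mul_le_mul_of_nonneg_left hcd hMr.le
      _ = 6400 * K1 := by rw [nδ1]; field_simp
  -- transfer
  have hphi : ∀ z, Reg c z → Reg c0 z →
      (M : ℝ) * ‖Phi 4096 2048 256 c z - Phi 4096 2048 256 c0 z‖ ≤ 256 * (6400 * K1) := by
    intro z hz hz'
    have := Phi_lip 4096 2048 256 nc.norm nc0.norm hz hz'
    rw [sub_self, norm_zero, mul_zero, zero_add] at this
    calc (M : ℝ) * ‖Phi 4096 2048 256 c z - Phi 4096 2048 256 c0 z‖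
        ≤ M * (((256 : ℕ) : ℝ) * ‖c - c0‖) := mul_le_mul_of_nonneg_left this hMr.le
      _ = 256 * (M * ‖c - c0‖) := by push_cast; ring
      _ ≤ 256 * (6400 * K1) := mul_le_mul_of_nonneg_left hMcd (by norm_num)
  have hG : ∀ z, Reg c z → Reg c0 z →
      (M : ℝ) * ‖(Phi 4096 2048 256 c z - Phi 4096 2048 256 c 1) -
        (Phi 4096 2048 256 c0 z - Phi 4096 2048 256 c0 1)‖ ≤ 512 * 6400 * K1 := by
    intro z hz hz'
    have a1 := hphi z hz hz'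
    have a2 := hphi 1 nc.reg_one nc0.reg_one
    have a3 : (Phi 4096 2048 256 c z - Phi 4096 2048 256 c 1) -
        (Phi 4096 2048 256 c0 z - Phi 4096 2048 256 c0 1) =
        (Phi 4096 2048 256 c z - Phi 4096 2048 256 c0 z) -
        (Phi 4096 2048 256 c 1 - Phi 4096 2048 256 c0 1) := by ring
    rw [a3]
    calc (M : ℝ) * ‖_ - _‖ ≤ M * (‖Phi 4096 2048 256 c z - Phi 4096 2048 256 c0 z‖ +
          ‖Phi 4096 2048 256 c 1 - Phi 4096 2048 256 c0 1‖) :=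
          mul_le_mul_of_nonneg_left (norm_sub_le _ _) hMr.le
      _ ≤ 512 * 6400 * K1 := by rw [mul_add]; linarith
  -- the fixed point
  obtain ⟨A1, A2, B1, B2, eA, hf, hA, hB⟩ :=
    start_sound hM0 ec0 nc0.norm ep0 (near_reg nc0 np0).h0 h3
  unfold finGP at hf
  rw [Bool.and_eq_true] at hf
  obtain ⟨g1, g2, eg, hg1, hg2⟩ := finG_sound hM ep0 (near_reg nc0 np0).h0 hA hB hf.1
  have r3 := chkS_sound hg1 hg2
  have r4 := runL hM ec0 nc0.norm ep1 (near_reg nc0 np1).h0 h4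
  have hη' : (3 : ℝ) * (η2 + 512 * 6400 * K1) + 512 * 6400 * K1 < η3 := by exact_mod_cast hη
  have s3 : (M : ℝ) * ‖Phi 4096 2048 256 c p0 - Phi 4096 2048 256 c 1‖ ≤
      η2 + 512 * 6400 * K1 := by
    have a1 := hG p0 (near_reg nc np0) (near_reg nc0 np0)
    have a2 : Phi 4096 2048 256 c p0 - Phi 4096 2048 256 c 1 =
        ((Phi 4096 2048 256 c p0 - Phi 4096 2048 256 c 1) -
        (Phi 4096 2048 256 c0 p0 - Phi 4096 2048 256 c0 1)) +
        (Phi 4096 2048 256 c0 p0 - Phi 4096 2048 256 c0 1) := by ring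
    rw [a2]
    refine (mul_le_mul_of_nonneg_left (norm_add_le _ _) hMr.le).trans ?_
    rw [mul_add]
    linarith
  have s4 : (η3 : ℝ) ≤ M * ‖Phi 4096 2048 256 c (p0 + δ2) - Phi 4096 2048 256 c 1‖ +
      512 * 6400 * K1 := by
    have a1 := hG (p0 + δ2) (near_reg nc np1) (near_reg nc0 np1)
    have a2 : Phi 4096 2048 256 c0 (p0 + δ2) - Phi 4096 2048 256 c0 1 =
        (Phi 4096 2048 256 c (p0 + δ2) - Phi 4096 2048 256 c 1) -
        ((Phi 4096 2048 256 c (p0 + δ2) - Phi 4096 2048 256 c 1) -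
        (Phi 4096 2048 256 c0 (p0 + δ2) - Phi 4096 2048 256 c0 1)) := by ring
    rw [a2] at r4
    refine r4.trans ?_
    refine (mul_le_mul_of_nonneg_left (norm_sub_le _ _) hMr.le).trans ?_
    rw [mul_add]
    linarith
  obtain ⟨p, hproot, hpdist⟩ := root_near (gz 4096 2048 256 c) 6400
    (gz_natDegree 4096 2048 256 c) (by norm_num) p0 δ2
    (by
      rw [gz_eval, gz_eval]
      have h5 : (M : ℝ) * (3 * ‖Phi 4096 2048 256 c p0 - Phi 4096 2048 256 c 1‖) ≤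
          M * ‖Phi 4096 2048 256 c (p0 + δ2) - Phi 4096 2048 256 c 1‖ := by
        linarith
      exact le_of_mul_le_mul_left h5 hMr)
    (by
      rw [gz_eval]
      intro h5
      rw [h5, norm_zero, mul_zero] at s4
      have : (0 : ℝ) ≤ η2 := Nat.cast_nonneg _
      have : (0 : ℝ) ≤ K1 := Nat.cast_nonneg _
      linarith)
  rw [gz_eval, sub_eq_zero] at hproot
  have hpd : ‖p0 - p‖ ≤ 6400 * ‖δ2‖ := by exact_mod_cast hpdist
  have np : nearP p := nearP_of bp0 (hpd.trans dδ2)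
  have hMpd : (M : ℝ) * ‖p - p0‖ ≤ 6400 * K2 := by
    rw [norm_sub_rev]
    calc (M : ℝ) * ‖p0 - p‖ ≤ M * (6400 * ‖δ2‖) := mul_le_mul_of_nonneg_left hpd hMr.le
      _ = 6400 * K2 := by rw [nδ2]; field_simp
  -- the multiplier
  obtain ⟨t1, t2, ht, hT⟩ := finP_sound hM ec0 ep0 (near_reg nc0 np0) hf.2
  unfold chkP at ht
  simp only [Bool.and_eq_true, decide_eq_true_eq] at ht
  obtain ⟨q1, q2, q3, q4, q5⟩ := ht
  have hEP' : (19197 : ℝ) + 6400 * 6400 * K2 + 256 * 6400 * K1 ≤ EP := by exact_mod_cast hEP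
  have hEF' : (Ea : ℝ) + 256 * 6400 * K1 ≤ EF := by exact_mod_cast hEF
  have tP : ‖zc t1 t2 - M * PP 4096 2048 256 c p‖ ≤ EP := by
    have a1 := PP_lip 4096 2048 256 (near_reg nc np) (near_reg nc0 np0)
    push_cast at a1
    have a2 : zc t1 t2 - M * PP 4096 2048 256 c p = (zc t1 t2 - M * PP 4096 2048 256 c0 p0) -
        M * (PP 4096 2048 256 c p - PP 4096 2048 256 c0 p0) := by ring
    rw [a2]
    have a3 : ‖(M : ℂ) * (PP 4096 2048 256 c p - PP 4096 2048 256 c0 p0)‖ ≤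
        6400 * (6400 * K2) + 256 * (6400 * K1) := by
      rw [norm_mul, Complex.norm_natCast]
      calc (M : ℝ) * ‖PP 4096 2048 256 c p - PP 4096 2048 256 c0 p0‖
          ≤ M * ((4096 + 2048 + 256) * ‖p - p0‖ + 256 * ‖c - c0‖) :=
            mul_le_mul_of_nonneg_left a1 hMr.le
        _ = 6400 * (M * ‖p - p0‖) + 256 * (M * ‖c - c0‖) := by ring
        _ ≤ 6400 * (6400 * K2) + 256 * (6400 * K1) := by
            have := mul_le_mul_of_nonneg_left hMpd (by norm_num : (0 : ℝ) ≤ 6400)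
            have := mul_le_mul_of_nonneg_left hMcd (by norm_num : (0 : ℝ) ≤ 256)
            linarith
    refine (norm_sub_le _ _).trans ?_
    have hT' : ‖zc t1 t2 - M * PP 4096 2048 256 c0 p0‖ ≤ 19197 := by exact_mod_cast hT
    linarith
  have tA : ‖zc A1 A2 - M * Phi 4096 2048 256 c 1‖ ≤ EF := by
    have a1 := hphi 1 nc.reg_one nc0.reg_one
    rw [← Phi_one] at hA
    have a2 : zc A1 A2 - M * Phi 4096 2048 256 c 1 = (zc A1 A2 - M * Phi 4096 2048 256 c0 1) -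
        M * (Phi 4096 2048 256 c 1 - Phi 4096 2048 256 c0 1) := by ring
    rw [a2]
    refine (norm_sub_le _ _).trans ?_
    rw [norm_mul, Complex.norm_natCast]
    have hA' : ‖zc A1 A2 - M * Phi 4096 2048 256 c0 1‖ ≤ Ea :=
      le_trans hA (by exact_mod_cast q1)
    linarith
  have hEFP' : (EF : ℝ) ≤ EP := by exact_mod_cast hEFP
  refine ⟨c, p, hcroot, hproot, ?_, ?_, ?_⟩
  · intro h5
    rw [h5, mul_zero, sub_zero] at tA
    have a1 := zc_norm_ge_max A1 A2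
    have a2 : (EP : ℝ) < ((max A1.natAbs A2.natAbs : ℕ) : ℝ) := by exact_mod_cast q5
    linarith
  · intro h5
    rw [h5, mul_zero, sub_zero] at tP
    have a1 := zc_norm_ge_max t1 t2
    have a2 : (EP : ℝ) < ((max t1.natAbs t2.natAbs : ℕ) : ℝ) := by exact_mod_cast q4
    linarith
  · -- norms
    have hU : ‖zc A1 A2‖ ≤ U := by
      have a1 : ‖zc A1 A2‖ ^ 2 ≤ (U : ℝ) ^ 2 := by
        rw [zc_normSq]
        have : ((A1 * A1 + A2 * A2 : ℤ) : ℝ) ≤ (((U : ℤ) * U : ℤ) : ℝ) := by exact_mod_cast q2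
        push_cast at this
        nlinarith
      exact (abs_le_of_sq_le_sq a1 (Nat.cast_nonneg _) |> abs_le.1).2
    have hX : (6400 : ℝ) * U + Δ ≤ ‖zc (2 * t1 - 6402 * A1) (2 * t2 - 6402 * A2)‖ := by
      have a1 : ((6400 : ℝ) * U + Δ) ^ 2 ≤ ‖zc (2 * t1 - 6402 * A1) (2 * t2 - 6402 * A2)‖ ^ 2 := by
        rw [zc_normSq]
        have : ((((6400 * U + Δ : ℕ) : ℤ) * ((6400 * U + Δ : ℕ) : ℤ) : ℤ) : ℝ) ≤
            (((2 * t1 - 6402 * A1) * (2 * t1 - 6402 * A1) +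
              (2 * t2 - 6402 * A2) * (2 * t2 - 6402 * A2) : ℤ) : ℝ) := by exact_mod_cast q3
        push_cast at this
        push_cast
        nlinarith
      exact (abs_le_of_sq_le_sq a1 (norm_nonneg _) |> abs_le.1).2
    have e1 : zc (2 * t1 - 6402 * A1) (2 * t2 - 6402 * A2) = 2 * zc t1 t2 - 6402 * zc A1 A2 := by
      unfold zc
      push_cast
      ring
    rw [e1] at hX
    have e2 : 2 * zc t1 t2 - 6402 * zc A1 A2 =
        (M : ℂ) * (2 * PP 4096 2048 256 c p - 6402 * Phi 4096 2048 256 c 1) +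
        2 * (zc t1 t2 - M * PP 4096 2048 256 c p) -
        6402 * (zc A1 A2 - M * Phi 4096 2048 256 c 1) := by ring
    have b1 : ‖2 * zc t1 t2 - 6402 * zc A1 A2‖ ≤
        M * ‖2 * PP 4096 2048 256 c p - 6402 * Phi 4096 2048 256 c 1‖ + 2 * EP + 6402 * EF := by
      rw [e2]
      refine (norm_sub_le _ _).trans ?_
      refine add_le_add ((norm_add_le _ _).trans (add_le_add ?_ ?_)) ?_
      · rw [norm_mul, Complex.norm_natCast]
      · rw [norm_mul]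
        have : ‖(2 : ℂ)‖ = 2 := by simp
        rw [this]
        linarith
      · rw [norm_mul]
        have : ‖(6402 : ℂ)‖ = 6402 := by simp
        rw [this]
        linarith
    have b2 : (M : ℝ) * ‖Phi 4096 2048 256 c 1‖ ≤ U + EF := by
      have : (M : ℝ) * ‖Phi 4096 2048 256 c 1‖ = ‖(M : ℂ) * Phi 4096 2048 256 c 1‖ := by
        rw [norm_mul, Complex.norm_natCast]
      rw [this]
      have e3 : (M : ℂ) * Phi 4096 2048 256 c 1 =
          zc A1 A2 - (zc A1 A2 - M * Phi 4096 2048 256 c 1) := by ring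
      rw [e3]
      refine (norm_sub_le _ _).trans ?_
      linarith
    have hΔ' : (2 : ℝ) * EP + 12802 * EF < Δ := by exact_mod_cast hΔ
    have b3 : (M : ℝ) * (6400 * ‖Phi 4096 2048 256 c 1‖) <
        M * ‖2 * PP 4096 2048 256 c p - 6402 * Phi 4096 2048 256 c 1‖ := by
      linarith
    exact lt_of_mul_lt_mul_left b3 hMr.le

end Pool.Agent.LibCrit
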