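import Pool.Agent.Lib_MP_11e9c7_an.Data

/-!
# Existence of the critical point and the fixed point
-/

namespace Pool.Agent.LibCrit

open Complex

theorem check1 : start MM C1 C2 C1 C2 (finG MM C1 C2 (chkS E1)) = true := by
  have h := check1'
  rw [forceN_eq, forceI_eq, forceI_eq, forceN_eq] at h
  exact h

theorem check2 : start MM (C1 + (KK1 : ℤ)) C2 (C1 + (KK1 : ℤ)) C2
    (finG MM (C1 + (KK1 : ℤ)) C2 (chkL (3 * E1))) = true := by
  have h := check2'
  rw [forceN_eq, forceI_eq, forceI_eq, forceN_eq] at h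
  exact h

theorem check3 : start MM C1 C2 Z1 Z2 (finGP MM E2 UU DD EEP EEa C1 C2 Z1 Z2) = true := by
  have h := check3'
  rw [forceN_eq, forceI_eq, forceI_eq, forceI_eq, forceI_eq, forceN_eq, forceN_eq, forceN_eq,
    forceN_eq, forceN_eq] at h
  exact h

theorem check4 : start MM C1 C2 (Z1 + (KK2 : ℤ)) Z2
    (finG MM (Z1 + (KK2 : ℤ)) Z2 (chkL E3)) = true := by
  have h := check4'
  rw [forceN_eq, forceI_eq, forceI_eq, forceI_eq, forceI_eq, forceN_eq] at h
  exact h

theorem exists_crit_fix : ∃ c p : ℂ, Phi 4096 2048 256 c c = Phi 4096 2048 256 c 1 ∧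
      Phi 4096 2048 256 c p = Phi 4096 2048 256 c 1 ∧ Phi 4096 2048 256 c 1 ≠ 0 ∧
      PP 4096 2048 256 c p ≠ 0 ∧
      6400 * ‖Phi 4096 2048 256 c 1‖ <
        ‖2 * PP 4096 2048 256 c p - 6402 * Phi 4096 2048 256 c 1‖ :=
  exists_cp (M := MM) (K1 := KK1) (K2 := KK2) (η1 := E1) (η2 := E2) (η3 := E3) (U := UU)
    (Δ := DD) (EP := EEP) (EF := EEF) (Ea := EEa) (c1 := C1) (c2 := C2) (z1 := Z1) (z2 := Z2)
    (by decide +kernel) (by decide +kernel) (by decide +kernel) (by decide +kernel)
    (by decide +kernel) (by decide +kernel) (by decide +kernel) (by decide +kernel)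
    (by decide +kernel) (by decide +kernel) (by decide +kernel) (by decide +kernel)
    (by decide +kernel) check1 check2 check3 check4

end Pool.Agent.LibCrit
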