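import Pool.Agent.Lib_MP_11e9c7_an.Theory

/-!
# Verified fixed point evaluation
-/

namespace Pool.Agent.LibCrit

open Complex

/-! ### Forced evaluation -/

/-- Evaluate a natural number before passing it on. -/
def forceN (n : ℕ) (f : ℕ → Bool) : Bool :=
  Nat.casesOn n (f 0) (fun m => f (Nat.succ m))

theorem forceN_eq (n : ℕ) (f : ℕ → Bool) : forceN n f = f n := by
  cases n <;> rfl

/-- Evaluate an integer before passing it on. -/
def forceI (x : ℤ) (f : ℤ → Bool) : Bool :=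
  Int.casesOn x
    (fun n => Nat.casesOn n (f (Int.ofNat 0)) (fun m => f (Int.ofNat (Nat.succ m))))
    (fun n => Nat.casesOn n (f (Int.negSucc 0)) (fun m => f (Int.negSucc (Nat.succ m))))

theorem forceI_eq (x : ℤ) (f : ℤ → Bool) : forceI x f = f x := by
  rcases x with (n | n)
  · cases n <;> rfl
  · cases n <;> rfl

/-! ### Approximations -/

/-- The complex number with integer parts. -/
noncomputable def zc (x y : ℤ) : ℂ := (x : ℂ) + (y : ℂ) * I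

theorem zc_mul (x y u v : ℤ) : zc x y * zc u v = zc (x * u - y * v) (x * v + y * u) := by
  unfold zc
  push_cast
  linear_combination ((y : ℂ) * v) * I_mul_I

theorem zc_add (x y u v : ℤ) : zc x y + zc u v = zc (x + u) (y + v) := by
  unfold zc
  push_cast
  ring

theorem zc_sub (x y u v : ℤ) : zc x y - zc u v = zc (x - u) (y - v) := by
  unfold zc
  push_cast
  ring

theorem zc_smul (m x y : ℤ) : (m : ℂ) * zc x y = zc (m * x) (m * y) := by
  unfold zc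
  push_cast
  ring

theorem zc_norm_le (x y : ℤ) : ‖zc x y‖ ≤ |(x : ℝ)| + |(y : ℝ)| := by
  have h := Complex.norm_le_abs_re_add_abs_im (zc x y)
  simpa [zc] using h

theorem zc_norm_ge_re (x y : ℤ) : |(x : ℝ)| ≤ ‖zc x y‖ := by
  have h := Complex.abs_re_le_norm (zc x y)
  simpa [zc] using h

theorem zc_normSq (x y : ℤ) : ‖zc x y‖ ^ 2 = (x : ℝ) ^ 2 + (y : ℝ) ^ 2 := by
  rw [Complex.sq_norm, Complex.normSq_apply]
  simp [zc]
  ring

theorem div_err (y : ℤ) (q : ℕ) (hq : 0 < q) : |((y / (q : ℤ) : ℤ) : ℝ) - (y : ℝ) / q| ≤ 1 := by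
  have hq' : (0 : ℝ) < q := by exact_mod_cast hq
  have h1 : (q : ℤ) * (y / (q : ℤ)) + y % (q : ℤ) = y := Int.mul_ediv_add_emod y q
  have h2 : 0 ≤ y % (q : ℤ) := Int.emod_nonneg _ (by exact_mod_cast hq.ne')
  have h3 : y % (q : ℤ) < q := Int.emod_lt_of_pos _ (by exact_mod_cast hq)
  have h4 : (y : ℝ) = q * ((y / (q : ℤ) : ℤ) : ℝ) + ((y % (q : ℤ) : ℤ) : ℝ) := by
    exact_mod_cast h1.symm
  have h2' : (0 : ℝ) ≤ ((y % (q : ℤ) : ℤ) : ℝ) := by exact_mod_cast h2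
  have h3' : ((y % (q : ℤ) : ℤ) : ℝ) < q := by exact_mod_cast h3
  rw [abs_le]
  constructor
  · have : (y : ℝ) / q ≤ ((y / (q : ℤ) : ℤ) : ℝ) + 1 := by
      rw [div_le_iff₀ hq']
      nlinarith
    linarith
  · have : ((y / (q : ℤ) : ℤ) : ℝ) ≤ (y : ℝ) / q := by
      rw [le_div_iff₀ hq']
      nlinarith
    linarith

theorem floor_err (y1 y2 : ℤ) (q : ℕ) (hq : 0 < q) :
    ‖zc (y1 / (q : ℤ)) (y2 / (q : ℤ)) - zc y1 y2 / q‖ ≤ 2 := by
  have h1 : zc (y1 / (q : ℤ)) (y2 / (q : ℤ)) - zc y1 y2 / q =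
      (((y1 / (q : ℤ) : ℤ) : ℝ) - (y1 : ℝ) / q : ℝ) +
      (((y2 / (q : ℤ) : ℤ) : ℝ) - (y2 : ℝ) / q : ℝ) * I := by
    unfold zc
    push_cast
    ring
  rw [h1]
  refine (Complex.norm_le_abs_re_add_abs_im _).trans ?_
  have h2 := div_err y1 q hq
  have h3 := div_err y2 q hq
  simp only [add_re, ofReal_re, mul_re, I_re, mul_zero, ofReal_im, I_im, mul_one, sub_self,
    add_zero, add_im, mul_im, zero_add]
  linarith

/-- `x + i y` approximates `M * Z` up to `e`. -/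
def Ap (M : ℕ) (x y : ℤ) (e : ℕ) (Z : ℂ) : Prop := ‖zc x y - (M : ℂ) * Z‖ ≤ e

theorem Ap.mono {M : ℕ} {x y : ℤ} {e e' : ℕ} {Z : ℂ} (h : Ap M x y e Z) (he : e ≤ e') :
    Ap M x y e' Z := le_trans h (by exact_mod_cast he)

theorem Ap.sub {M : ℕ} {x y u v : ℤ} {e f : ℕ} {Z W : ℂ} (h : Ap M x y e Z)
    (h' : Ap M u v f W) : Ap M (x - u) (y - v) (e + f) (Z - W) := by
  unfold Ap at *
  have : zc (x - u) (y - v) - (M : ℂ) * (Z - W) =
      (zc x y - (M : ℂ) * Z) - (zc u v - (M : ℂ) * W) := by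
    rw [← zc_sub]; ring
  rw [this]
  push_cast
  exact (norm_sub_le _ _).trans (add_le_add h h')

theorem Ap.mul_small {M : ℕ} (hM : 0 < M) {x y u v : ℤ} {e f : ℕ} {Z W : ℂ}
    (h : Ap M x y e Z) (h' : Ap M u v f W) (hZ : ‖Z‖ ≤ 1) (hW : ‖W‖ ≤ 1) (hef : e * f ≤ M) :
    Ap M ((x * u - y * v) / (M : ℤ)) ((x * v + y * u) / (M : ℤ)) (e + f + 3) (Z * W) := by
  unfold Ap at *
  have hM' : (0 : ℝ) < M := by exact_mod_cast hM
  have hMc : (M : ℂ) ≠ 0 := by exact_mod_cast hM.ne'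
  have h1 := floor_err (x * u - y * v) (x * v + y * u) M hM
  rw [← zc_mul] at h1
  have h2 : zc x y * zc u v / M - (M : ℂ) * (Z * W) =
      ((zc x y - M * Z) * (zc u v - M * W)) / M + Z * (zc u v - M * W) +
      (zc x y - M * Z) * W := by
    field_simp
    ring
  have h3 : ‖zc x y * zc u v / M - (M : ℂ) * (Z * W)‖ ≤ 1 + f + e := by
    rw [h2]
    have a1 : ‖((zc x y - M * Z) * (zc u v - M * W)) / M‖ ≤ 1 := by
      rw [norm_div, norm_mul, Complex.norm_natCast, div_le_one hM']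
      calc ‖zc x y - M * Z‖ * ‖zc u v - M * W‖ ≤ (e : ℝ) * f :=
            mul_le_mul h h' (norm_nonneg _) (Nat.cast_nonneg _)
        _ ≤ M := by exact_mod_cast hef
    have a2 : ‖Z * (zc u v - M * W)‖ ≤ f := by
      rw [norm_mul]
      calc ‖Z‖ * ‖zc u v - M * W‖ ≤ 1 * f := mul_le_mul hZ h' (norm_nonneg _) zero_le_one
        _ = f := one_mul _
    have a3 : ‖(zc x y - M * Z) * W‖ ≤ e := by
      rw [norm_mul]
      calc ‖zc x y - M * Z‖ * ‖W‖ ≤ e * 1 := mul_le_mul h hW (norm_nonneg _) (Nat.cast_nonneg _)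
        _ = e := mul_one _
    refine (norm_add_le _ _).trans ?_
    refine (add_le_add_left (norm_add_le _ _) _).trans ?_
    linarith
  have h4 : zc ((x * u - y * v) / (M : ℤ)) ((x * v + y * u) / (M : ℤ)) - (M : ℂ) * (Z * W) =
      (zc ((x * u - y * v) / (M : ℤ)) ((x * v + y * u) / (M : ℤ)) - zc x y * zc u v / M) +
      (zc x y * zc u v / M - (M : ℂ) * (Z * W)) := by ring
  rw [h4]
  push_cast
  refine (norm_add_le _ _).trans ?_
  linarith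

theorem Ap.mul_big {M : ℕ} (hM : 0 < M) {x y u v : ℤ} {e f : ℕ} {Z W : ℂ}
    (h : Ap M x y e Z) (h' : Ap M u v f W) (hZ : ‖Z‖ ≤ 1) :
    Ap M ((x * u - y * v) / (M : ℤ)) ((x * v + y * u) / (M : ℤ))
      (e * (u.natAbs + v.natAbs) / M + f + 3) (Z * W) := by
  unfold Ap at *
  have hM' : (0 : ℝ) < M := by exact_mod_cast hM
  have hMc : (M : ℂ) ≠ 0 := by exact_mod_cast hM.ne'
  have h1 := floor_err (x * u - y * v) (x * v + y * u) M hM
  rw [← zc_mul] at h1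
  have h2 : zc x y * zc u v / M - (M : ℂ) * (Z * W) =
      ((zc x y - M * Z) * zc u v) / M + Z * (zc u v - M * W) := by
    field_simp
    ring
  have hN : ((u.natAbs : ℝ) + v.natAbs) = |(u : ℝ)| + |(v : ℝ)| := by
    rw [Nat.cast_natAbs, Nat.cast_natAbs]
    push_cast
    rfl
  have hdiv : ((e * (u.natAbs + v.natAbs) : ℕ) : ℝ) / M ≤
      ((e * (u.natAbs + v.natAbs) / M : ℕ) : ℝ) + 1 := by
    have := Nat.lt_floor_add_one (((e * (u.natAbs + v.natAbs) : ℕ) : ℝ) / M)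
    rw [Nat.floor_div_eq_div] at this
    exact this.le
  have h3 : ‖zc x y * zc u v / M - (M : ℂ) * (Z * W)‖ ≤
      ((e * (u.natAbs + v.natAbs) / M : ℕ) : ℝ) + 1 + f := by
    rw [h2]
    have a1 : ‖((zc x y - M * Z) * zc u v) / M‖ ≤ ((e * (u.natAbs + v.natAbs) : ℕ) : ℝ) / M := by
      rw [norm_div, norm_mul, Complex.norm_natCast]
      apply div_le_div_of_nonneg_right _ hM'.le
      push_cast [hN]
      exact mul_le_mul h (zc_norm_le u v) (norm_nonneg _) (Nat.cast_nonneg _)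
    have a2 : ‖Z * (zc u v - M * W)‖ ≤ f := by
      rw [norm_mul]
      calc ‖Z‖ * ‖zc u v - M * W‖ ≤ 1 * f := mul_le_mul hZ h' (norm_nonneg _) zero_le_one
        _ = f := one_mul _
    refine (norm_add_le _ _).trans ?_
    linarith
  have h4 : zc ((x * u - y * v) / (M : ℤ)) ((x * v + y * u) / (M : ℤ)) - (M : ℂ) * (Z * W) =
      (zc ((x * u - y * v) / (M : ℤ)) ((x * v + y * u) / (M : ℤ)) - zc x y * zc u v / M) +
      (zc x y * zc u v / M - (M : ℂ) * (Z * W)) := by ring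
  rw [h4]
  push_cast at h3 ⊢
  refine (norm_add_le _ _).trans ?_
  linarith

/-! ### Squarings -/

/-- Repeated squaring, then continue with `f`. -/
def sq (M : ℕ) (f : ℤ → ℤ → Bool) (j : ℕ) : ℤ → ℤ → Bool :=
  Nat.rec (motive := fun _ => ℤ → ℤ → Bool) f
    (fun _ ih x y => forceI ((x * x - y * y) / (M : ℤ)) fun x' =>
      forceI ((x * y + y * x) / (M : ℤ)) fun y' => ih x' y') j

theorem sq_zero (M : ℕ) (f : ℤ → ℤ → Bool) (x y : ℤ) : sq M f 0 x y = f x y := rfl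

theorem sq_succ (M : ℕ) (f : ℤ → ℤ → Bool) (j : ℕ) (x y : ℤ) :
    sq M f (j + 1) x y = sq M f j ((x * x - y * y) / (M : ℤ)) ((x * y + y * x) / (M : ℤ)) := by
  change forceI ((x * x - y * y) / (M : ℤ)) (fun x' =>
      forceI ((x * y + y * x) / (M : ℤ)) fun y' => sq M f j x' y') = _
  rw [forceI_eq, forceI_eq]

theorem sq_sound {M : ℕ} (hM : (3 * 2 ^ 13) ^ 2 ≤ M) {f : ℤ → ℤ → Bool} {Z : ℂ}
    (hZ : ‖Z‖ ≤ 1) : ∀ (j i : ℕ) (x y : ℤ), i + j ≤ 13 → Ap M x y (3 * (2 ^ i - 1)) (Z ^ (2 ^ i)) →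
    sq M f j x y = true →
    ∃ x' y', f x' y' = true ∧ Ap M x' y' (3 * (2 ^ (i + j) - 1)) (Z ^ (2 ^ (i + j))) := by
  have hM0 : 0 < M := lt_of_lt_of_le (by norm_num) hM
  intro j
  induction j with
  | zero =>
    intro i x y _ h hf
    exact ⟨x, y, hf, h⟩
  | succ j ih =>
    intro i x y hij h hf
    rw [sq_succ] at hf
    have hpow : (2 : ℕ) ^ i ≤ 2 ^ 13 := Nat.pow_le_pow_right (by norm_num) (by omega)
    have hef : 3 * (2 ^ i - 1) * (3 * (2 ^ i - 1)) ≤ M := by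
      have h1 : 3 * (2 ^ i - 1) ≤ 3 * 2 ^ 13 := Nat.mul_le_mul_left 3 (by omega)
      calc 3 * (2 ^ i - 1) * (3 * (2 ^ i - 1)) ≤ (3 * 2 ^ 13) * (3 * 2 ^ 13) :=
            Nat.mul_le_mul h1 h1
        _ = (3 * 2 ^ 13) ^ 2 := by ring
        _ ≤ M := hM
    have hZi : ‖Z ^ (2 ^ i)‖ ≤ 1 := by
      rw [norm_pow]; exact pow_le_one₀ (norm_nonneg _) hZ
    have h1 := h.mul_small hM0 h hZi hZi hef
    have e1 : 3 * (2 ^ i - 1) + 3 * (2 ^ i - 1) + 3 = 3 * (2 ^ (i + 1) - 1) := by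
      have h2 : 1 ≤ 2 ^ i := Nat.one_le_two_pow
      rw [pow_succ]
      omega
    have e2 : Z ^ (2 ^ i) * Z ^ (2 ^ i) = Z ^ (2 ^ (i + 1)) := by
      rw [← pow_add]; congr 1; ring
    rw [e1, e2] at h1
    obtain ⟨x', y', hf', h'⟩ := ih (i + 1) _ _ (by omega) h1 hf
    refine ⟨x', y', hf', ?_⟩
    have e3 : i + 1 + j = i + (j + 1) := by ring
    rw [e3] at h'
    exact h'

theorem sq_sound' {M : ℕ} (hM : (3 * 2 ^ 13) ^ 2 ≤ M) {f : ℤ → ℤ → Bool} {Z : ℂ}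
    (hZ : ‖Z‖ ≤ 1) (j : ℕ) (x y : ℤ) (hj : j ≤ 13) (h : zc x y = M * Z)
    (hf : sq M f j x y = true) :
    ∃ x' y', f x' y' = true ∧ Ap M x' y' (3 * (2 ^ j - 1)) (Z ^ (2 ^ j)) := by
  have h0 : Ap M x y (3 * (2 ^ 0 - 1)) (Z ^ (2 ^ 0)) := by
    unfold Ap
    simp [h]
  have := sq_sound hM hZ j 0 x y (by omega) h0 hf
  simpa using this

/-! ### The main loop -/

/-- The evaluation loop. -/
def loop (b e D M : ℕ) (c1 c2 z1 z2 : ℤ) (fin : ℤ → ℤ → ℤ → ℤ → ℕ → Bool) (fuel : ℕ) :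
    ℕ → ℤ → ℤ → ℤ → ℤ → ℕ → ℕ → ℤ → ℤ → ℤ → ℤ → ℕ → Bool :=
  Nat.rec (motive := fun _ => ℕ → ℤ → ℤ → ℤ → ℤ → ℕ → ℕ → ℤ → ℤ → ℤ → ℤ → ℕ → Bool)
    (fun _ _ _ _ _ _ _ A1 A2 B1 B2 eA => fin A1 A2 B1 B2 eA)
    (fun _ ih k x1 x2 w1 w2 ek ew A1 A2 B1 B2 eA =>
      forceI (((k : ℤ) - (b : ℤ)) * (M : ℤ) + ((k : ℤ) - (e : ℤ)) * c1) fun G1 =>
      forceI (((k : ℤ) - (e : ℤ)) * c2) fun G2 =>
      forceI (((b + e + 1 - k : ℕ) : ℤ) * c1) fun H1 =>
      forceI (((b + e + 1 - k : ℕ) : ℤ) * c2) fun H2 =>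
      forceN ((k + 1) * M) fun q =>
      forceI ((G1 * x1 - G2 * x2 + (H1 * w1 - H2 * w2)) / (q : ℤ)) fun y1 =>
      forceI ((G1 * x2 + G2 * x1 + (H1 * w2 + H2 * w1)) / (q : ℤ)) fun y2 =>
      forceN ((((k - b) + (b - k) + ((k - e) + (e - k))) * ek + (b + e + 1 - k) * ew) / (k + 1)
        + 3) fun en =>
      forceN (eA + en + 4) fun eA' =>
      forceI (y1 / ((D - k : ℕ) : ℤ)) fun t1 =>
      forceI (y2 / ((D - k : ℕ) : ℤ)) fun t2 =>
      forceI (A1 + t1) fun A1' =>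
      forceI (A2 + t2) fun A2' =>
      forceI ((B1 * z1 - B2 * z2) / (M : ℤ) + t1) fun B1' =>
      forceI ((B1 * z2 + B2 * z1) / (M : ℤ) + t2) fun B2' =>
      forceN (k + 1) fun k' =>
      ih k' y1 y2 x1 x2 en ek A1' A2' B1' B2' eA') fuel

/-- The state of the loop. -/
structure St where
  /-- current coefficient, first part -/
  x1 : ℤ
  /-- current coefficient, second part -/
  x2 : ℤ
  /-- previous coefficient, first part -/
  w1 : ℤ
  /-- previous coefficient, second part -/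
  w2 : ℤ
  /-- error of the current coefficient -/
  ek : ℕ
  /-- error of the previous coefficient -/
  ew : ℕ
  /-- accumulator at one -/
  A1 : ℤ
  /-- accumulator at one -/
  A2 : ℤ
  /-- accumulator at z -/
  B1 : ℤ
  /-- accumulator at z -/
  B2 : ℤ
  /-- error of the accumulators -/
  eA : ℕ

/-- The invariant. -/
structure Inv (a b e M : ℕ) (c z : ℂ) (k : ℕ) (s : St) : Prop where
  hx : Ap M s.x1 s.x2 s.ek (rr b e c k).1
  hw : Ap M s.w1 s.w2 s.ew (rr b e c k).2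
  hA : Ap M s.A1 s.A2 s.eA (acc a b e c 1 k)
  hB : Ap M s.B1 s.B2 s.eA (acc a b e c z k)

theorem step_r {b e M : ℕ} (hM : 0 < M) {c : ℂ} {c1 c2 : ℤ} (hc : zc c1 c2 = M * c)
    (hc1 : ‖c‖ ≤ 1) {k : ℕ} (hk : k < b + e) {x1 x2 w1 w2 : ℤ} {ek ew : ℕ}
    (hx : Ap M x1 x2 ek (rr b e c k).1) (hw : Ap M w1 w2 ew (rr b e c k).2) :
    Ap M (((((k : ℤ) - (b : ℤ)) * (M : ℤ) + ((k : ℤ) - (e : ℤ)) * c1) * x1 -
        (((k : ℤ) - (e : ℤ)) * c2) * x2 + ((((b + e + 1 - k : ℕ) : ℤ) * c1) * w1 -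
        (((b + e + 1 - k : ℕ) : ℤ) * c2) * w2)) / (((k + 1) * M : ℕ) : ℤ))
      (((((k : ℤ) - (b : ℤ)) * (M : ℤ) + ((k : ℤ) - (e : ℤ)) * c1) * x2 +
        (((k : ℤ) - (e : ℤ)) * c2) * x1 + ((((b + e + 1 - k : ℕ) : ℤ) * c1) * w2 +
        (((b + e + 1 - k : ℕ) : ℤ) * c2) * w1)) / (((k + 1) * M : ℕ) : ℤ))
      ((((k - b) + (b - k) + ((k - e) + (e - k))) * ek + (b + e + 1 - k) * ew) / (k + 1) + 3)
      (rr b e c (k + 1)).1 := by
  have hq : 0 < (k + 1) * M := Nat.mul_pos (Nat.succ_pos k) hM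
  have hMc : (M : ℂ) ≠ 0 := by exact_mod_cast hM.ne'
  have hk1 : ((k : ℂ) + 1) ≠ 0 := by exact_mod_cast Nat.succ_ne_zero k
  have hk1' : (0 : ℝ) < (k : ℝ) + 1 := by positivity
  set G1 : ℤ := ((k : ℤ) - (b : ℤ)) * (M : ℤ) + ((k : ℤ) - (e : ℤ)) * c1 with hG1
  set G2 : ℤ := ((k : ℤ) - (e : ℤ)) * c2 with hG2
  set H1 : ℤ := ((b + e + 1 - k : ℕ) : ℤ) * c1 with hH1
  set H2 : ℤ := ((b + e + 1 - k : ℕ) : ℤ) * c2 with hH2
  have hG : zc G1 G2 = M * (((k : ℂ) - b) + ((k : ℂ) - e) * c) := by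
    have : zc G1 G2 = ((k : ℂ) - b) * M + ((k : ℂ) - e) * zc c1 c2 := by
      unfold zc
      rw [hG1, hG2]
      push_cast
      ring
    rw [this, hc]
    ring
  have hcast : ((b + e + 1 - k : ℕ) : ℂ) = (b : ℂ) + e - k + 1 := by
    rw [Nat.cast_sub (by omega)]
    push_cast
    ring
  have hH : zc H1 H2 = M * (((b : ℂ) + e - k + 1) * c) := by
    have : zc H1 H2 = ((b + e + 1 - k : ℕ) : ℂ) * zc c1 c2 := by
      unfold zc
      rw [hH1, hH2]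
      push_cast
      ring
    rw [this, hc, hcast]
    ring
  have hY : zc (G1 * x1 - G2 * x2 + (H1 * w1 - H2 * w2)) (G1 * x2 + G2 * x1 + (H1 * w2 + H2 * w1))
      = zc G1 G2 * zc x1 x2 + zc H1 H2 * zc w1 w2 := by
    rw [zc_mul, zc_mul, zc_add]
  have h1 := floor_err (G1 * x1 - G2 * x2 + (H1 * w1 - H2 * w2))
    (G1 * x2 + G2 * x1 + (H1 * w2 + H2 * w1)) ((k + 1) * M) hq
  rw [hY, hG, hH] at h1
  set α : ℂ := ((k : ℂ) - b) + ((k : ℂ) - e) * c with hα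
  set β : ℂ := ((b : ℂ) + e - k + 1) * c with hβ
  have h2 : (M * α * zc x1 x2 + M * β * zc w1 w2) / (((k + 1) * M : ℕ) : ℂ) -
      M * (rr b e c (k + 1)).1 =
      (α * (zc x1 x2 - M * (rr b e c k).1) + β * (zc w1 w2 - M * (rr b e c k).2)) /
        ((k : ℂ) + 1) := by
    simp only [rr]
    push_cast
    rw [hα, hβ]
    field_simp
    ring
  have hαn : ‖α‖ ≤ (((k - b) + (b - k) + ((k - e) + (e - k)) : ℕ) : ℝ) := by
    have n1 : ∀ m : ℕ, ‖(k : ℂ) - m‖ = (((k - m) + (m - k) : ℕ) : ℝ) := by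
      intro m
      have : ((k : ℂ) - m) = (((k : ℝ) - m : ℝ) : ℂ) := by push_cast; rfl
      rw [this, Complex.norm_real, Real.norm_eq_abs]
      rcases le_total k m with h | h
      · have e1 : k - m = 0 := by omega
        rw [e1, zero_add, Nat.cast_sub h, abs_of_nonpos (by
          have : (k : ℝ) ≤ m := by exact_mod_cast h
          linarith)]
        ring
      · have e1 : m - k = 0 := by omega
        rw [e1, add_zero, Nat.cast_sub h, abs_of_nonneg (by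
          have : (m : ℝ) ≤ k := by exact_mod_cast h
          linarith)]
    calc ‖α‖ ≤ ‖(k : ℂ) - b‖ + ‖((k : ℂ) - e) * c‖ := norm_add_le _ _
      _ ≤ ‖(k : ℂ) - b‖ + ‖(k : ℂ) - e‖ * 1 := by
          rw [norm_mul]
          have := mul_le_mul_of_nonneg_left hc1 (norm_nonneg ((k : ℂ) - e))
          linarith
      _ = _ := by rw [n1, n1]; push_cast; ring
  have hβn : ‖β‖ ≤ ((b + e + 1 - k : ℕ) : ℝ) := by
    rw [hβ, norm_mul, ← hcast, Complex.norm_natCast]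
    calc ((b + e + 1 - k : ℕ) : ℝ) * ‖c‖ ≤ ((b + e + 1 - k : ℕ) : ℝ) * 1 :=
          mul_le_mul_of_nonneg_left hc1 (Nat.cast_nonneg _)
      _ = _ := mul_one _
  unfold Ap at hx hw ⊢
  set N : ℕ := ((k - b) + (b - k) + ((k - e) + (e - k))) * ek + (b + e + 1 - k) * ew with hN
  have h3 : ‖(α * (zc x1 x2 - M * (rr b e c k).1) + β * (zc w1 w2 - M * (rr b e c k).2)) /
        ((k : ℂ) + 1)‖ ≤ (N : ℝ) / ((k + 1 : ℕ) : ℝ) := by
    have hnk : ‖(k : ℂ) + 1‖ = ((k + 1 : ℕ) : ℝ) := by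
      have : (k : ℂ) + 1 = ((k + 1 : ℕ) : ℂ) := by push_cast; rfl
      rw [this, Complex.norm_natCast]
    rw [norm_div, hnk]
    apply div_le_div_of_nonneg_right _ (Nat.cast_nonneg _)
    calc _ ≤ ‖α * (zc x1 x2 - M * (rr b e c k).1)‖ + ‖β * (zc w1 w2 - M * (rr b e c k).2)‖ :=
          norm_add_le _ _
      _ ≤ (((k - b) + (b - k) + ((k - e) + (e - k)) : ℕ) : ℝ) * ek +
          ((b + e + 1 - k : ℕ) : ℝ) * ew := by
          rw [norm_mul, norm_mul]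
          exact add_le_add (mul_le_mul hαn hx (norm_nonneg _) (Nat.cast_nonneg _))
            (mul_le_mul hβn hw (norm_nonneg _) (Nat.cast_nonneg _))
      _ = (N : ℝ) := by rw [hN]; push_cast; ring
  have h4 : (N : ℝ) / ((k + 1 : ℕ) : ℝ) ≤ ((N / (k + 1) : ℕ) : ℝ) + 1 := by
    have := Nat.lt_floor_add_one ((N : ℝ) / ((k + 1 : ℕ) : ℝ))
    rw [Nat.floor_div_eq_div] at this
    exact this.le
  have h5 : ∀ V : ℂ, V - M * (rr b e c (k + 1)).1 =
      (V - (M * α * zc x1 x2 + M * β * zc w1 w2) / (((k + 1) * M : ℕ) : ℂ)) +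
      ((M * α * zc x1 x2 + M * β * zc w1 w2) / (((k + 1) * M : ℕ) : ℂ) -
      M * (rr b e c (k + 1)).1) := fun V => by ring
  rw [h5]
  refine (norm_add_le _ _).trans ?_
  rw [h2]
  push_cast
  push_cast at h4 h3 h1
  linarith

theorem step_acc {a b e M : ℕ} (hM : 0 < M) {c z : ℂ} {z1 z2 : ℤ} (hz : zc z1 z2 = M * z)
    (hz1 : ‖z‖ ≤ 1) {k : ℕ} (hk : k < b + e) {y1 y2 B1 B2 : ℤ} {en eA : ℕ}
    (hy : Ap M y1 y2 en (rr b e c (k + 1)).1) (hB : Ap M B1 B2 eA (acc a b e c z k)) :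
    Ap M ((B1 * z1 - B2 * z2) / (M : ℤ) + y1 / ((a + b + e - k : ℕ) : ℤ))
      ((B1 * z2 + B2 * z1) / (M : ℤ) + y2 / ((a + b + e - k : ℕ) : ℤ)) (eA + en + 4)
      (acc a b e c z (k + 1)) := by
  have hM' : (0 : ℝ) < M := by exact_mod_cast hM
  have hMc : (M : ℂ) ≠ 0 := by exact_mod_cast hM.ne'
  have hm : 0 < a + b + e - k := by omega
  have hcast : ((a + b + e - k : ℕ) : ℂ) = (a : ℂ) + b + e - k := by
    rw [Nat.cast_sub (by omega)]
    push_cast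
    ring
  have hmc : ((a : ℂ) + b + e - k) ≠ 0 := by
    rw [← hcast]
    exact_mod_cast hm.ne'
  have h1 := floor_err (B1 * z1 - B2 * z2) (B1 * z2 + B2 * z1) M hM
  rw [← zc_mul, hz] at h1
  have h2 := floor_err y1 y2 (a + b + e - k) hm
  unfold Ap at *
  rw [acc, ← zc_add]
  have h3 : zc ((B1 * z1 - B2 * z2) / (M : ℤ)) ((B1 * z2 + B2 * z1) / (M : ℤ)) +
      zc (y1 / ((a + b + e - k : ℕ) : ℤ)) (y2 / ((a + b + e - k : ℕ) : ℤ)) -
      (M : ℂ) * (acc a b e c z k * z + (rr b e c (k + 1)).1 / ((a : ℂ) + b + e - k)) =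
      (zc ((B1 * z1 - B2 * z2) / (M : ℤ)) ((B1 * z2 + B2 * z1) / (M : ℤ)) -
        zc B1 B2 * (M * z) / M) +
      (zc (y1 / ((a + b + e - k : ℕ) : ℤ)) (y2 / ((a + b + e - k : ℕ) : ℤ)) -
        zc y1 y2 / ((a + b + e - k : ℕ) : ℂ)) +
      (zc B1 B2 - M * acc a b e c z k) * z +
      (zc y1 y2 - M * (rr b e c (k + 1)).1) / ((a + b + e - k : ℕ) : ℂ) := by
    rw [hcast]
    field_simp
    ring
  rw [h3]
  have a1 : ‖(zc B1 B2 - M * acc a b e c z k) * z‖ ≤ eA := by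
    rw [norm_mul]
    calc ‖zc B1 B2 - M * acc a b e c z k‖ * ‖z‖ ≤ eA * 1 :=
          mul_le_mul hB hz1 (norm_nonneg _) (Nat.cast_nonneg _)
      _ = eA := mul_one _
  have a2 : ‖(zc y1 y2 - M * (rr b e c (k + 1)).1) / ((a + b + e - k : ℕ) : ℂ)‖ ≤ en := by
    rw [norm_div, Complex.norm_natCast]
    have hm1 : (1 : ℝ) ≤ ((a + b + e - k : ℕ) : ℝ) := by exact_mod_cast hm
    calc ‖zc y1 y2 - M * (rr b e c (k + 1)).1‖ / ((a + b + e - k : ℕ) : ℝ)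
        ≤ ‖zc y1 y2 - M * (rr b e c (k + 1)).1‖ := div_le_self (norm_nonneg _) hm1
      _ ≤ en := hy
  refine (norm_add_le _ _).trans ?_
  refine (add_le_add_left ((norm_add_le _ _).trans (add_le_add_left (norm_add_le _ _) _)) _).trans ?_
  push_cast
  linarith

theorem step_acc_one {a b e M : ℕ} {c : ℂ} {k : ℕ} (hk : k < b + e)
    {y1 y2 A1 A2 : ℤ} {en eA : ℕ}
    (hy : Ap M y1 y2 en (rr b e c (k + 1)).1) (hA : Ap M A1 A2 eA (acc a b e c 1 k)) :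
    Ap M (A1 + y1 / ((a + b + e - k : ℕ) : ℤ)) (A2 + y2 / ((a + b + e - k : ℕ) : ℤ))
      (eA + en + 4) (acc a b e c 1 (k + 1)) := by
  have hm : 0 < a + b + e - k := by omega
  have hcast : ((a + b + e - k : ℕ) : ℂ) = (a : ℂ) + b + e - k := by
    rw [Nat.cast_sub (by omega)]
    push_cast
    ring
  have hmc : ((a : ℂ) + b + e - k) ≠ 0 := by
    rw [← hcast]
    exact_mod_cast hm.ne'
  have h2 := floor_err y1 y2 (a + b + e - k) hm
  unfold Ap at *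
  rw [acc, ← zc_add]
  have h3 : zc A1 A2 +
      zc (y1 / ((a + b + e - k : ℕ) : ℤ)) (y2 / ((a + b + e - k : ℕ) : ℤ)) -
      (M : ℂ) * (acc a b e c 1 k * 1 + (rr b e c (k + 1)).1 / ((a : ℂ) + b + e - k)) =
      (zc (y1 / ((a + b + e - k : ℕ) : ℤ)) (y2 / ((a + b + e - k : ℕ) : ℤ)) -
        zc y1 y2 / ((a + b + e - k : ℕ) : ℂ)) +
      (zc A1 A2 - M * acc a b e c 1 k) +
      (zc y1 y2 - M * (rr b e c (k + 1)).1) / ((a + b + e - k : ℕ) : ℂ) := by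
    rw [hcast]
    field_simp
    ring
  rw [h3]
  have a2 : ‖(zc y1 y2 - M * (rr b e c (k + 1)).1) / ((a + b + e - k : ℕ) : ℂ)‖ ≤ en := by
    rw [norm_div, Complex.norm_natCast]
    have hm1 : (1 : ℝ) ≤ ((a + b + e - k : ℕ) : ℝ) := by exact_mod_cast hm
    calc ‖zc y1 y2 - M * (rr b e c (k + 1)).1‖ / ((a + b + e - k : ℕ) : ℝ)
        ≤ ‖zc y1 y2 - M * (rr b e c (k + 1)).1‖ := div_le_self (norm_nonneg _) hm1
      _ ≤ en := hy
  refine (norm_add_le _ _).trans ?_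
  refine (add_le_add_left (norm_add_le _ _) _).trans ?_
  push_cast
  linarith

theorem loop_sound {a b e D M : ℕ} (hD : D = a + b + e) (hM : 0 < M) {c z : ℂ}
    {c1 c2 z1 z2 : ℤ} (hc : zc c1 c2 = M * c) (hc1 : ‖c‖ ≤ 1) (hz : zc z1 z2 = M * z)
    (hz1 : ‖z‖ ≤ 1) {fin : ℤ → ℤ → ℤ → ℤ → ℕ → Bool} :
    ∀ (fuel k : ℕ) (s : St), k + fuel ≤ b + e → Inv a b e M c z k s →
    loop b e D M c1 c2 z1 z2 fin fuel k s.x1 s.x2 s.w1 s.w2 s.ek s.ew s.A1 s.A2 s.B1 s.B2 s.eA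
      = true →
    ∃ A1 A2 B1 B2 eA, fin A1 A2 B1 B2 eA = true ∧ Ap M A1 A2 eA (acc a b e c 1 (k + fuel)) ∧
      Ap M B1 B2 eA (acc a b e c z (k + fuel)) := by
  subst hD
  intro fuel
  induction fuel with
  | zero =>
    intro k s _ hinv h
    exact ⟨s.A1, s.A2, s.B1, s.B2, s.eA, h, hinv.hA, hinv.hB⟩
  | succ fuel ih =>
    intro k s hk hinv h
    have hk' : k < b + e := by omega
    have hx := step_r hM hc hc1 hk' hinv.hx hinv.hw
    have hA := step_acc_one hk' hx hinv.hA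
    have hB := step_acc hM hz hz1 hk' hx hinv.hB
    have hw : Ap M s.x1 s.x2 s.ek (rr b e c (k + 1)).2 := hinv.hx
    have hinv' : Inv a b e M c z (k + 1) ⟨_, _, s.x1, s.x2, _, s.ek, _, _, _, _, _⟩ :=
      ⟨hx, hw, hA, hB⟩
    have := ih (k + 1) _ (by omega) hinv'
    have e1 : k + 1 + fuel = k + (fuel + 1) := by ring
    rw [e1] at this
    apply this
    rw [← h]
    unfold loop
    simp only [forceI_eq, forceN_eq]

end Pool.Agent.LibCrit
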