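import Mathlib

/-!
# The integral of `t ^ a * (t - 1) ^ b * (t - c) ^ e`
-/

namespace Pool.Agent.LibCrit

open Polynomial

/-- The pair `(r_k, r_(k-1))` of coefficients of `(X - 1) ^ b * (X - c) ^ e`, from the top. -/
noncomputable def rr (b e : ℕ) (c : ℂ) : ℕ → ℂ × ℂ
  | 0 => (1, 0)
  | k + 1 => (((((k : ℂ) - b) + c * ((k : ℂ) - e)) * (rr b e c k).1 +
      c * ((b : ℂ) + e - k + 1) * (rr b e c k).2) / ((k : ℂ) + 1), (rr b e c k).1)

/-- The polynomial `(X - 1) ^ b * (X - c) ^ e`. -/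
noncomputable def TT (b e : ℕ) (c : ℂ) : ℂ[X] := (X - C 1) ^ b * (X - C c) ^ e

theorem der_pow (x : ℂ) (m : ℕ) :
    (X - C x) * derivative ((X - C x) ^ m) = C (m : ℂ) * (X - C x) ^ m := by
  rw [derivative_X_sub_C_pow]
  rcases m with _ | m
  · simp
  · rw [Nat.add_sub_cancel, pow_succ]
    ring

theorem TT_ode (b e : ℕ) (c : ℂ) :
    derivative (TT b e c) * ((X - C 1) * (X - C c)) =
      (C (b : ℂ) * (X - C c) + C (e : ℂ) * (X - C 1)) * TT b e c := by
  unfold TT
  rw [derivative_mul]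
  have h1 := der_pow 1 b
  have h2 := der_pow c e
  calc (derivative ((X - C 1) ^ b) * (X - C c) ^ e + (X - C 1) ^ b * derivative ((X - C c) ^ e)) *
        ((X - C 1) * (X - C c))
      = ((X - C 1) * derivative ((X - C 1) ^ b)) * (X - C c) ^ e * (X - C c) +
        (X - C 1) ^ b * ((X - C c) * derivative ((X - C c) ^ e)) * (X - C 1) := by ring
    _ = _ := by rw [h1, h2]; ring

theorem TT_rec (b e : ℕ) (c : ℂ) (j : ℕ) :
    ((b : ℂ) + e - j) * (TT b e c).coeff j =
      -((1 + c) * ((j : ℂ) + 1) - b * c - e) * (TT b e c).coeff (j + 1) +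
      c * ((j : ℂ) + 2) * (TT b e c).coeff (j + 2) := by
  have h := TT_ode b e c
  set T := TT b e c with hT
  have h1 : derivative T * ((X - C 1) * (X - C c)) =
      derivative T * X * X - C (1 + c) * (derivative T * X) + C c * derivative T := by
    simp only [C_add, C_1]
    ring
  have h2 : (C (b : ℂ) * (X - C c) + C (e : ℂ) * (X - C 1)) * T =
      C ((b : ℂ) + e) * (T * X) - C (b * c + e) * T := by
    simp only [C_add, C_mul, C_1]
    ring
  rw [h1, h2] at h
  have h3 := congrArg (fun p => p.coeff (j + 1)) h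
  simp only [coeff_add, coeff_sub, coeff_C_mul, coeff_mul_X, coeff_derivative] at h3
  have h4 : (derivative T * X).coeff j = j * T.coeff j := by
    rcases j with _ | i
    · simp
    · rw [coeff_mul_X, coeff_derivative]
      push_cast
      ring
  rw [h4] at h3
  push_cast at h3
  linear_combination (-1 : ℂ) * h3

theorem TT_monic (b e : ℕ) (c : ℂ) : (TT b e c).Monic :=
  ((monic_X_sub_C 1).pow b).mul ((monic_X_sub_C c).pow e)

theorem TT_natDegree (b e : ℕ) (c : ℂ) : (TT b e c).natDegree = b + e := by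
  unfold TT
  rw [Monic.natDegree_mul ((monic_X_sub_C 1).pow b) ((monic_X_sub_C c).pow e),
    natDegree_pow, natDegree_pow, natDegree_X_sub_C, natDegree_X_sub_C, mul_one, mul_one]

theorem rr_eq (b e : ℕ) (c : ℂ) (k : ℕ) (hk : k ≤ b + e) :
    (rr b e c k).1 = (TT b e c).coeff (b + e - k) ∧
    (rr b e c k).2 = (TT b e c).coeff (b + e - k + 1) := by
  induction k with
  | zero =>
    constructor
    · have := TT_monic b e c
      rw [Monic, leadingCoeff, TT_natDegree] at this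
      simp [rr, this]
    · have : (TT b e c).coeff (b + e + 1) = 0 := by
        apply coeff_eq_zero_of_natDegree_lt
        rw [TT_natDegree]
        omega
      simp [rr, this]
  | succ k ih =>
    obtain ⟨h1, h2⟩ := ih (by omega)
    obtain ⟨j, hj⟩ : ∃ j, b + e - k = j + 1 := ⟨b + e - k - 1, by omega⟩
    have hj' : b + e - (k + 1) = j := by omega
    rw [hj] at h1 h2
    rw [hj']
    constructor
    · simp only [rr]
      rw [h1, h2]
      have hrec := TT_rec b e c j
      have hn : (b : ℂ) + e = k + j + 1 := by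
        have : b + e = k + j + 1 := by omega
        exact_mod_cast this
      have hk1 : ((k : ℂ) + 1) ≠ 0 := by exact_mod_cast Nat.succ_ne_zero k
      rw [div_eq_iff hk1]
      have hb : (b : ℂ) = k + j + 1 - e := by linear_combination hn
      rw [hb] at hrec ⊢
      have e1 : j + 1 + 1 = j + 2 := rfl
      rw [e1]
      linear_combination -hrec
    · simp only [rr]
      rw [h1]

/-- `t ^ a * (t - 1) ^ b * (t - c) ^ e`. -/
noncomputable def PP (a b e : ℕ) (c t : ℂ) : ℂ := t ^ a * (t - 1) ^ b * (t - c) ^ e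

theorem PP_eq_sum (a b e : ℕ) (c t : ℂ) :
    PP a b e c t = ∑ k ∈ Finset.range (b + e + 1), (rr b e c k).1 * t ^ (a + b + e - k) := by
  have h1 : PP a b e c t = t ^ a * (TT b e c).eval t := by
    unfold PP TT
    simp only [eval_mul, eval_pow, eval_sub, eval_X, eval_C]
    ring
  rw [h1, eval_eq_sum_range, TT_natDegree, ← Finset.sum_range_reflect, Finset.mul_sum]
  apply Finset.sum_congr rfl
  intro k hk
  rw [Finset.mem_range] at hk
  rw [(rr_eq b e c k (by omega)).1]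
  have e1 : b + e + 1 - 1 - k = b + e - k := by omega
  have e2 : a + b + e - k = a + (b + e - k) := by omega
  rw [e1, e2, pow_add]
  ring

/-- The normalised integral. -/
noncomputable def Phi (a b e : ℕ) (c z : ℂ) : ℂ :=
  ∑ k ∈ Finset.range (b + e + 1), (rr b e c k).1 * z ^ (a + b + e - k) /
    ((a : ℂ) + b + e + 1 - k)

theorem integral_pow_complex (m : ℕ) : ∫ s in (0 : ℝ)..1, ((s : ℂ)) ^ m = 1 / ((m : ℂ) + 1) := by
  have h : ∀ s : ℝ, ((s : ℂ)) ^ m = ((s ^ m : ℝ) : ℂ) := fun s => by push_cast; rfl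
  simp_rw [h]
  rw [intervalIntegral.integral_ofReal, integral_pow]
  push_cast
  simp

theorem Phi_eq_integral (a b e : ℕ) (c z : ℂ) :
    Phi a b e c z = ∫ s in (0 : ℝ)..1, PP a b e c (z * s) := by
  simp_rw [PP_eq_sum]
  rw [intervalIntegral.integral_finsetSum]
  · unfold Phi
    apply Finset.sum_congr rfl
    intro k hk
    rw [Finset.mem_range] at hk
    simp_rw [mul_pow]
    have h1 : ∀ s : ℝ, (rr b e c k).1 * (z ^ (a + b + e - k) * (s : ℂ) ^ (a + b + e - k)) =
        ((rr b e c k).1 * z ^ (a + b + e - k)) * (s : ℂ) ^ (a + b + e - k) := fun s => by ring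
    simp_rw [h1]
    rw [intervalIntegral.integral_const_mul, integral_pow_complex]
    have h2 : ((a + b + e - k : ℕ) : ℂ) + 1 = (a : ℂ) + b + e + 1 - k := by
      rw [Nat.cast_sub (by omega)]
      push_cast
      ring
    rw [h2]
    ring
  · intro k _
    apply Continuous.intervalIntegrable
    fun_prop

/-! ### Lipschitz bounds -/

theorem pow_lip (m : ℕ) {x y : ℂ} (hx : ‖x‖ ≤ 1) (hy : ‖y‖ ≤ 1) :
    ‖x ^ m - y ^ m‖ ≤ m * ‖x - y‖ := by
  induction m with
  | zero => simp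
  | succ m ih =>
    have h1 : x ^ (m + 1) - y ^ (m + 1) = x * (x ^ m - y ^ m) + (x - y) * y ^ m := by ring
    rw [h1]
    have h2 : ‖y ^ m‖ ≤ 1 := by rw [norm_pow]; exact pow_le_one₀ (norm_nonneg _) hy
    calc ‖x * (x ^ m - y ^ m) + (x - y) * y ^ m‖
        ≤ ‖x * (x ^ m - y ^ m)‖ + ‖(x - y) * y ^ m‖ := norm_add_le _ _
      _ = ‖x‖ * ‖x ^ m - y ^ m‖ + ‖x - y‖ * ‖y ^ m‖ := by rw [norm_mul, norm_mul]
      _ ≤ 1 * (m * ‖x - y‖) + ‖x - y‖ * 1 := by
          apply add_le_add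
          · exact mul_le_mul hx ih (norm_nonneg _) zero_le_one
          · exact mul_le_mul_of_nonneg_left h2 (norm_nonneg _)
      _ = ((m + 1 : ℕ) : ℝ) * ‖x - y‖ := by push_cast; ring

theorem mul3_lip {x y z x' y' z' : ℂ} (hx' : ‖x'‖ ≤ 1) (hy : ‖y‖ ≤ 1)
    (hy' : ‖y'‖ ≤ 1) (hz : ‖z‖ ≤ 1) :
    ‖x * y * z - x' * y' * z'‖ ≤ ‖x - x'‖ + ‖y - y'‖ + ‖z - z'‖ := by
  have h1 : x * y * z - x' * y' * z' = (x - x') * y * z + x' * (y - y') * z +
      x' * y' * (z - z') := by ring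
  rw [h1]
  have a1 : ‖(x - x') * y * z‖ ≤ ‖x - x'‖ := by
    rw [norm_mul, norm_mul]
    calc ‖x - x'‖ * ‖y‖ * ‖z‖ ≤ ‖x - x'‖ * 1 * 1 := by gcongr
      _ = _ := by ring
  have a2 : ‖x' * (y - y') * z‖ ≤ ‖y - y'‖ := by
    rw [norm_mul, norm_mul]
    calc ‖x'‖ * ‖y - y'‖ * ‖z‖ ≤ 1 * ‖y - y'‖ * 1 := by gcongr
      _ = _ := by ring
  have a3 : ‖x' * y' * (z - z')‖ ≤ ‖z - z'‖ := by
    rw [norm_mul, norm_mul]
    calc ‖x'‖ * ‖y'‖ * ‖z - z'‖ ≤ 1 * 1 * ‖z - z'‖ := by gcongr
      _ = _ := by ring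
  calc _ ≤ ‖(x - x') * y * z‖ + ‖x' * (y - y') * z‖ + ‖x' * y' * (z - z')‖ :=
        (norm_add_le _ _).trans (add_le_add_left (norm_add_le _ _) _)
    _ ≤ _ := by linarith

/-- The conditions on the pair `(c, t)` under which all factors have norm at most one. -/
structure Reg (c t : ℂ) : Prop where
  h0 : ‖t‖ ≤ 1
  h1 : ‖t - 1‖ ≤ 1
  h2 : ‖t - c‖ ≤ 1

theorem PP_lip (a b e : ℕ) {c t c' t' : ℂ} (h : Reg c t) (h' : Reg c' t') :
    ‖PP a b e c t - PP a b e c' t'‖ ≤ ((a : ℝ) + b + e) * ‖t - t'‖ + e * ‖c - c'‖ := by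
  unfold PP
  have p1 : ∀ (m : ℕ) (x : ℂ), ‖x‖ ≤ 1 → ‖x ^ m‖ ≤ 1 := fun m x hx => by
    rw [norm_pow]; exact pow_le_one₀ (norm_nonneg _) hx
  have h1 := mul3_lip (x := t ^ a) (y := (t - 1) ^ b) (z := (t - c) ^ e) (x' := t' ^ a)
    (y' := (t' - 1) ^ b) (z' := (t' - c') ^ e) (p1 _ _ h'.h0) (p1 _ _ h.h1) (p1 _ _ h'.h1)
    (p1 _ _ h.h2)
  have h2 := pow_lip a h.h0 h'.h0
  have h3 := pow_lip b h.h1 h'.h1
  have h4 := pow_lip e h.h2 h'.h2
  have h5 : t - 1 - (t' - 1) = t - t' := by ring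
  rw [h5] at h3
  have h6 : ‖t - c - (t' - c')‖ ≤ ‖t - t'‖ + ‖c - c'‖ := by
    have : t - c - (t' - c') = (t - t') - (c - c') := by ring
    rw [this]
    exact norm_sub_le _ _
  have h7 : (e : ℝ) * ‖t - c - (t' - c')‖ ≤ e * (‖t - t'‖ + ‖c - c'‖) :=
    mul_le_mul_of_nonneg_left h6 (Nat.cast_nonneg _)
  calc _ ≤ _ := h1
    _ ≤ (a : ℝ) * ‖t - t'‖ + b * ‖t - t'‖ + e * (‖t - t'‖ + ‖c - c'‖) := by linarith
    _ = _ := by ring

theorem Reg.smul {c z : ℂ} (h : Reg c z) (hc : ‖c‖ ≤ 1) {s : ℝ} (h0 : 0 ≤ s) (h1 : s ≤ 1) :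
    Reg c (z * s) := by
  have hs : ‖(s : ℂ)‖ = s := by rw [Complex.norm_real, Real.norm_of_nonneg h0]
  have hs' : ‖((1 - s : ℝ) : ℂ)‖ = 1 - s := by
    rw [Complex.norm_real, Real.norm_of_nonneg (by linarith)]
  refine ⟨?_, ?_, ?_⟩
  · rw [norm_mul, hs]
    calc ‖z‖ * s ≤ 1 * 1 := mul_le_mul h.h0 h1 h0 zero_le_one
      _ = 1 := one_mul 1
  · have : z * s - 1 = (z - 1) * s - ((1 - s : ℝ) : ℂ) := by push_cast; ring
    rw [this]
    calc ‖(z - 1) * s - ((1 - s : ℝ) : ℂ)‖ ≤ ‖(z - 1) * s‖ + ‖((1 - s : ℝ) : ℂ)‖ :=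
          norm_sub_le _ _
      _ = ‖z - 1‖ * s + (1 - s) := by rw [norm_mul, hs, hs']
      _ ≤ 1 * s + (1 - s) := by
          have := mul_le_mul_of_nonneg_right h.h1 h0
          linarith
      _ = 1 := by ring
  · have : z * s - c = (z - c) * s - c * ((1 - s : ℝ) : ℂ) := by push_cast; ring
    rw [this]
    calc ‖(z - c) * s - c * ((1 - s : ℝ) : ℂ)‖ ≤ ‖(z - c) * s‖ + ‖c * ((1 - s : ℝ) : ℂ)‖ :=
          norm_sub_le _ _
      _ = ‖z - c‖ * s + ‖c‖ * (1 - s) := by rw [norm_mul, norm_mul, hs, hs']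
      _ ≤ 1 * s + 1 * (1 - s) := by
          have h3 := mul_le_mul_of_nonneg_right h.h2 h0
          have h4 := mul_le_mul_of_nonneg_right hc (by linarith : (0 : ℝ) ≤ 1 - s)
          linarith
      _ = 1 := by ring

theorem PP_continuous (a b e : ℕ) (c : ℂ) : Continuous (PP a b e c) := by
  unfold PP
  fun_prop

theorem Phi_lip (a b e : ℕ) {c z c' z' : ℂ} (hc : ‖c‖ ≤ 1) (hc' : ‖c'‖ ≤ 1) (h : Reg c z)
    (h' : Reg c' z') :
    ‖Phi a b e c z - Phi a b e c' z'‖ ≤ ((a : ℝ) + b + e) * ‖z - z'‖ + e * ‖c - c'‖ := by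
  rw [Phi_eq_integral, Phi_eq_integral, ← intervalIntegral.integral_sub]
  · have h1 : ∀ s ∈ Set.uIoc (0 : ℝ) 1, ‖PP a b e c (z * s) - PP a b e c' (z' * s)‖ ≤
        ((a : ℝ) + b + e) * ‖z - z'‖ + e * ‖c - c'‖ := by
      intro s hs
      rw [Set.uIoc_of_le zero_le_one, Set.mem_Ioc] at hs
      have h2 := PP_lip a b e (h.smul hc hs.1.le hs.2) (h'.smul hc' hs.1.le hs.2)
      have h3 : ‖z * s - z' * s‖ ≤ ‖z - z'‖ := by
        rw [← sub_mul, norm_mul, Complex.norm_real, Real.norm_of_nonneg hs.1.le]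
        calc ‖z - z'‖ * s ≤ ‖z - z'‖ * 1 := mul_le_mul_of_nonneg_left hs.2 (norm_nonneg _)
          _ = _ := mul_one _
      have h4 : ((a : ℝ) + b + e) * ‖z * s - z' * s‖ ≤ ((a : ℝ) + b + e) * ‖z - z'‖ :=
        mul_le_mul_of_nonneg_left h3 (by positivity)
      linarith
    have := intervalIntegral.norm_integral_le_of_norm_le_const h1
    simpa using this
  · exact ((PP_continuous a b e c).comp (by fun_prop)).intervalIntegrable _ _
  · exact ((PP_continuous a b e c').comp (by fun_prop)).intervalIntegrable _ _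

/-! ### Polynomials -/

/-- `Phi` as a polynomial in `z`, minus its value at one. -/
noncomputable def gz (a b e : ℕ) (c : ℂ) : ℂ[X] :=
  ∑ k ∈ Finset.range (b + e + 1), C ((rr b e c k).1 / ((a : ℂ) + b + e + 1 - k)) *
    X ^ (a + b + e - k) - C (Phi a b e c 1)

theorem gz_eval (a b e : ℕ) (c z : ℂ) : (gz a b e c).eval z = Phi a b e c z - Phi a b e c 1 := by
  unfold gz
  rw [eval_sub, eval_C, eval_finsetSum]
  congr 1
  unfold Phi
  apply Finset.sum_congr rfl
  intro k _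
  rw [eval_mul, eval_C, eval_pow, eval_X]
  ring

theorem gz_natDegree (a b e : ℕ) (c : ℂ) : (gz a b e c).natDegree ≤ a + b + e := by
  unfold gz
  refine (natDegree_sub_le _ _).trans (max_le ?_ ?_)
  · apply natDegree_sum_le_of_forall_le
    intro k _
    refine (natDegree_C_mul_X_pow_le _ _).trans (Nat.sub_le _ _)
  · rw [natDegree_C]
    exact Nat.zero_le _

/-- The coefficients as polynomials in `c`. -/
noncomputable def rp (b e : ℕ) : ℕ → ℂ[X] × ℂ[X]
  | 0 => (1, 0)
  | k + 1 => (C (1 / ((k : ℂ) + 1)) * ((C ((k : ℂ) - b) + X * C ((k : ℂ) - e)) * (rp b e k).1 +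
      X * C ((b : ℂ) + e - k + 1) * (rp b e k).2), (rp b e k).1)

theorem rp_eval (b e : ℕ) (c : ℂ) (k : ℕ) :
    ((rp b e k).1.eval c = (rr b e c k).1) ∧ ((rp b e k).2.eval c = (rr b e c k).2) := by
  induction k with
  | zero => simp [rp, rr]
  | succ k ih =>
    simp only [rp, rr]
    refine ⟨?_, ih.1⟩
    rw [← ih.1, ← ih.2]
    simp only [eval_mul, eval_add, eval_C, eval_X]
    ring

theorem rp_natDegree (b e : ℕ) (k : ℕ) :
    (rp b e k).1.natDegree ≤ k ∧ (rp b e k).2.natDegree ≤ k := by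
  induction k with
  | zero => simp [rp]
  | succ k ih =>
    simp only [rp]
    refine ⟨?_, ih.1.trans (Nat.le_succ k)⟩
    refine (natDegree_C_mul_le _ _).trans ?_
    refine (natDegree_add_le _ _).trans (max_le ?_ ?_)
    · refine natDegree_mul_le.trans ?_
      have h1 : (C ((k : ℂ) - b) + X * C ((k : ℂ) - e)).natDegree ≤ 1 := by
        refine (natDegree_add_le _ _).trans (max_le ?_ ?_)
        · rw [natDegree_C]; exact Nat.zero_le _
        · refine natDegree_mul_le.trans ?_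
          rw [natDegree_C, natDegree_X]
      have := ih.1
      omega
    · refine natDegree_mul_le.trans ?_
      have h1 : (X * C ((b : ℂ) + e - k + 1)).natDegree ≤ 1 := by
        refine natDegree_mul_le.trans ?_
        rw [natDegree_C, natDegree_X]
      have := ih.2
      omega

/-- `Phi c c - Phi c 1` as a polynomial in `c`. -/
noncomputable def gc (a b e : ℕ) : ℂ[X] :=
  ∑ k ∈ Finset.range (b + e + 1), C (1 / ((a : ℂ) + b + e + 1 - k)) *
    ((rp b e k).1 * (X ^ (a + b + e - k) - 1))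

theorem gc_eval (a b e : ℕ) (c : ℂ) : (gc a b e).eval c = Phi a b e c c - Phi a b e c 1 := by
  unfold gc
  rw [eval_finsetSum]
  unfold Phi
  rw [← Finset.sum_sub_distrib]
  apply Finset.sum_congr rfl
  intro k _
  simp only [eval_mul, eval_C, eval_pow, eval_X, eval_sub, eval_one, (rp_eval b e c k).1, one_pow]
  ring

theorem gc_natDegree (a b e : ℕ) : (gc a b e).natDegree ≤ a + b + e := by
  unfold gc
  apply natDegree_sum_le_of_forall_le
  intro k hk
  rw [Finset.mem_range] at hk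
  refine (natDegree_C_mul_le _ _).trans ?_
  refine natDegree_mul_le.trans ?_
  have h1 := (rp_natDegree b e k).1
  have h2 : (X ^ (a + b + e - k) - 1 : ℂ[X]).natDegree ≤ a + b + e - k := by
    refine (natDegree_sub_le _ _).trans (max_le ?_ ?_)
    · rw [natDegree_X_pow]
    · rw [natDegree_one]; exact Nat.zero_le _
  omega

/-- The antiderivative. -/
noncomputable def FF (a b e : ℕ) (c : ℂ) : ℂ[X] :=
  ∑ k ∈ Finset.range (b + e + 1), C ((rr b e c k).1 / ((a : ℂ) + b + e + 1 - k)) *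
    X ^ (a + b + e + 1 - k)

theorem FF_eval (a b e : ℕ) (c z : ℂ) : (FF a b e c).eval z = z * Phi a b e c z := by
  unfold FF Phi
  rw [eval_finsetSum, Finset.mul_sum]
  apply Finset.sum_congr rfl
  intro k hk
  rw [Finset.mem_range] at hk
  rw [eval_mul, eval_C, eval_pow, eval_X]
  have : a + b + e + 1 - k = (a + b + e - k) + 1 := by omega
  rw [this, pow_succ]
  ring

theorem FF_derivative_eval (a b e : ℕ) (c z : ℂ) :
    (derivative (FF a b e c)).eval z = PP a b e c z := by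
  unfold FF
  rw [derivative_sum, eval_finsetSum, PP_eq_sum]
  apply Finset.sum_congr rfl
  intro k hk
  rw [Finset.mem_range] at hk
  have h1 : a + b + e + 1 - k = (a + b + e - k) + 1 := by omega
  rw [derivative_C_mul_X_pow, eval_mul, eval_C, eval_pow, eval_X, h1, Nat.add_sub_cancel]
  have h2 : (((a + b + e - k) + 1 : ℕ) : ℂ) = (a : ℂ) + b + e + 1 - k := by
    push_cast [Nat.cast_sub (show k ≤ a + b + e by omega)]
    ring
  rw [h2]
  have h3 : (a : ℂ) + b + e + 1 - k ≠ 0 := by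
    rw [← h2]
    exact Nat.cast_ne_zero.2 (Nat.succ_ne_zero _)
  field_simp

theorem FF_natDegree (a b e : ℕ) (c : ℂ) : (FF a b e c).natDegree = a + b + e + 1 := by
  have hcoeff : (FF a b e c).coeff (a + b + e + 1) = 1 / ((a : ℂ) + b + e + 1) := by
    unfold FF
    rw [finsetSum_coeff, Finset.sum_eq_single 0]
    · simp [rr]
    · intro k hk hk0
      rw [Finset.mem_range] at hk
      rw [coeff_C_mul_X_pow, if_neg (by omega)]
    · intro h
      simp at h
  have hne : ((a : ℂ) + b + e + 1) ≠ 0 := by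
    have : ((a + b + e + 1 : ℕ) : ℂ) ≠ 0 := Nat.cast_ne_zero.2 (Nat.succ_ne_zero _)
    push_cast at this
    exact this
  apply le_antisymm
  · unfold FF
    apply natDegree_sum_le_of_forall_le
    intro k _
    exact (natDegree_C_mul_X_pow_le _ _).trans (Nat.sub_le _ _)
  · apply le_natDegree_of_ne_zero
    rw [hcoeff]
    exact one_div_ne_zero hne

/-! ### Horner form -/

/-- Horner accumulation. -/
noncomputable def acc (a b e : ℕ) (c z : ℂ) : ℕ → ℂ
  | 0 => 1 / ((a : ℂ) + b + e + 1)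
  | k + 1 => acc a b e c z k * z + (rr b e c (k + 1)).1 / ((a : ℂ) + b + e - k)

theorem acc_eq (a b e : ℕ) (c z : ℂ) (k : ℕ) :
    acc a b e c z k = ∑ i ∈ Finset.range (k + 1), (rr b e c i).1 * z ^ (k - i) /
      ((a : ℂ) + b + e + 1 - i) := by
  induction k with
  | zero => simp [acc, rr]
  | succ k ih =>
    rw [acc, ih, Finset.sum_range_succ _ (k + 1), Finset.sum_mul]
    congr 1
    · apply Finset.sum_congr rfl
      intro i hi
      rw [Finset.mem_range] at hi
      have : k + 1 - i = (k - i) + 1 := by omega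
      rw [this, pow_succ]
      ring
    · rw [Nat.sub_self, pow_zero, mul_one]
      congr 1
      push_cast
      ring

theorem Phi_eq_acc (a b e : ℕ) (c z : ℂ) :
    Phi a b e c z = z ^ a * acc a b e c z (b + e) := by
  rw [acc_eq, Finset.mul_sum]
  unfold Phi
  apply Finset.sum_congr rfl
  intro k hk
  rw [Finset.mem_range] at hk
  have : a + b + e - k = a + (b + e - k) := by omega
  rw [this, pow_add]
  ring

end Pool.Agent.LibCrit
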